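import Pool.Agent.helper54.CR.Bloch
import Pool.Agent.helper98.ILF.Lift

/-!
# A Landau type theorem: functions omitting `0` and `1`
-/

set_option autoImplicit false

open Metric Set Filter Topology Complex

namespace Pool.Agent.helper54.CR

open Pool.Agent.helper98.ILF

lemma cosh_gap (x : ℝ) : Real.cosh (2 * x) + 2 ≤ Real.cosh (2 * |x| + 2) := by
  have h1 : Real.cosh (2 * |x| + 2) =
      Real.cosh (2 * |x|) * Real.cosh 2 + Real.sinh (2 * |x|) * Real.sinh 2 := Real.cosh_add _ _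
  have h2 : Real.cosh (2 * |x|) = Real.cosh (2 * x) := by
    rw [← Real.cosh_abs (2 * x), abs_mul, abs_two]
  have h3 : 0 ≤ Real.sinh (2 * |x|) := Real.sinh_nonneg_iff.2 (by positivity)
  have h4 : 0 ≤ Real.sinh 2 := Real.sinh_nonneg_iff.2 (by norm_num)
  have h5 : 1 ≤ Real.cosh (2 * |x|) := Real.one_le_cosh _
  have h6 : 3 ≤ Real.cosh 2 := by
    rw [Real.cosh_eq]
    have e1 : Real.exp 2 = Real.exp 1 * Real.exp 1 := by rw [← Real.exp_add]; norm_num
    have e2 := Real.exp_one_gt_d9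
    have e3 := Real.exp_pos (-2)
    nlinarith
  rw [h1, ← h2]
  nlinarith [mul_nonneg h3 h4]

/-- near every real number there is a point where `cosh (2 x)` is an odd integer. -/
lemma exists_cosh_odd (x : ℝ) : ∃ y : ℝ, ∃ m : ℤ, |y - x| ≤ 1 ∧ Real.cosh (2 * y) = 2 * m - 1 := by
  wlog hx : 0 ≤ x generalizing x
  · obtain ⟨y, m, h1, h2⟩ := this (-x) (by linarith)
    refine ⟨-y, m, ?_, ?_⟩
    · rw [← abs_neg]
      convert h1 using 2
      ring
    · rw [mul_neg, Real.cosh_neg, h2]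
  set m := ⌈(Real.cosh (2 * x) + 1) / 2⌉ with hm
  have h1 := Int.le_ceil ((Real.cosh (2 * x) + 1) / 2)
  have h2 := Int.ceil_lt_add_one ((Real.cosh (2 * x) + 1) / 2)
  rw [← hm] at h1 h2
  have h3 := cosh_gap x
  rw [abs_of_nonneg hx] at h3
  have h4 : (2 * (m : ℝ) - 1) ∈ Icc (Real.cosh (2 * x)) (Real.cosh (2 * (x + 1))) := by
    constructor
    · linarith
    · rw [mul_add, mul_one]; linarith
  obtain ⟨y, hy, hy2⟩ := intermediate_value_Icc (f := fun y => Real.cosh (2 * y))
    (a := x) (b := x + 1) (by linarith) (by fun_prop) h4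
  refine ⟨y, m, ?_, hy2⟩
  rw [abs_le]
  constructor <;> linarith [hy.1, hy.2]

/-- near every complex number there is a point where `cosh (2 z)` is an odd integer. -/
lemma exists_ccosh_odd (a : ℂ) : ∃ b ∈ ball a 2, ∃ m : ℤ, Complex.cosh (2 * b) = 2 * m - 1 := by
  obtain ⟨y, m, hy, hm⟩ := exists_cosh_odd a.re
  set k := round (2 * a.im / Real.pi) with hk
  have hk2 := abs_sub_round (2 * a.im / Real.pi)
  rw [← hk] at hk2
  have hpi := Real.pi_pos
  have him : |k * (Real.pi / 2) - a.im| ≤ Real.pi / 4 := by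
    have h1 : (k : ℝ) * (Real.pi / 2) - a.im = -((2 * a.im / Real.pi - k) * (Real.pi / 2)) := by
      field_simp
      ring
    rw [h1, abs_neg, abs_mul, abs_of_pos (show 0 < Real.pi / 2 by positivity)]
    nlinarith
  refine ⟨⟨y, k * (Real.pi / 2)⟩, ?_, ?_⟩
  · rw [mem_ball, dist_eq_norm]
    have h1 : (⟨y, k * (Real.pi / 2)⟩ - a : ℂ) = ⟨y - a.re, k * (Real.pi / 2) - a.im⟩ := by
      apply Complex.ext <;> simp
    rw [h1]
    refine (Complex.norm_le_abs_re_add_abs_im _).trans_lt ?_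
    simp only
    have := Real.pi_lt_d2
    linarith
  · have h1 : (2 : ℂ) * ⟨y, k * (Real.pi / 2)⟩ = ((2 * y : ℝ) : ℂ) + k * (Real.pi * I) := by
      apply Complex.ext
      · simp
      · simp; ring
    rw [h1]
    have h2 : Complex.cosh (((2 * y : ℝ) : ℂ) + k * (Real.pi * I)) =
        (if Even k then 1 else -1) * Complex.cosh ((2 * y : ℝ) : ℂ) := by
      rw [Complex.cosh_add]
      have e1 : Complex.cosh (k * (Real.pi * I)) = if Even k then 1 else -1 := by
        rw [← mul_assoc, Complex.cosh_mul_I]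
        have : Complex.cos ((k : ℂ) * Real.pi) = ((Real.cos (k * Real.pi) : ℝ) : ℂ) := by
          push_cast; rfl
        rw [this, Real.cos_int_mul_pi]
        split_ifs with h
        · rw [h.neg_one_zpow]; simp
        · rw [(Int.not_even_iff_odd.1 h).neg_one_zpow]; simp
      have e2 : Complex.sinh (k * (Real.pi * I)) = 0 := by
        rw [← mul_assoc, Complex.sinh_mul_I]
        rw [Complex.sin_int_mul_pi, zero_mul]
      rw [e1, e2, mul_zero, add_zero, mul_comm]
    rw [h2]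
    have h3 : Complex.cosh ((2 * y : ℝ) : ℂ) = 2 * m - 1 := by
      rw [← Complex.ofReal_cosh, hm]; push_cast; ring
    rw [h3]
    split_ifs
    · exact ⟨m, by ring⟩
    · exact ⟨1 - m, by push_cast; ring⟩

/-- Landau's theorem: the logarithmic derivative of a function omitting `0` and `1`. -/
theorem landau {F : ℂ → ℂ} {w : ℂ} {ρ : ℝ} (hρ : 0 < ρ) (hd : DifferentiableOn ℂ F (ball w ρ))
    (h0 : ∀ z ∈ ball w ρ, F z ≠ 0) (h1 : ∀ z ∈ ball w ρ, F z ≠ 1) :
    ‖deriv F w / F w‖ ≤ 4000 / ρ * (1 + |Real.log ‖F w‖|) := by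
  have hw : w ∈ ball w ρ := mem_ball_self hρ
  obtain ⟨h, hhd, hhw, hh⟩ := exists_lift_exp (u := Complex.log (F w)) hρ hd h0
    (Complex.exp_log (h0 w hw))
  have hpi : (2 * Real.pi * I : ℂ) ≠ 0 := Complex.two_pi_I_ne_zero
  set Lf : ℂ → ℂ := fun z => h z / (2 * Real.pi * I) with hLf
  have hLd : DifferentiableOn ℂ Lf (ball w ρ) := hhd.div_const _
  have hLint : ∀ z ∈ ball w ρ, ∀ k : ℤ, Lf z ≠ k := by
    intro z hz k hk
    apply h1 z hz
    rw [← hh z hz, Complex.exp_eq_one_iff]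
    exact ⟨k, by rw [← hk, hLf]; field_simp⟩
  have hL0 : ∀ z ∈ ball w ρ, Lf z ≠ 0 := fun z hz => by simpa using hLint z hz 0
  have hL1 : ∀ z ∈ ball w ρ, Lf z - 1 ≠ 0 := fun z hz => by
    rw [sub_ne_zero]; simpa using hLint z hz 1
  obtain ⟨s, hsd, -, hs⟩ := exists_lift_pow (n := 2) two_ne_zero (u := Lf w ^ (1 / 2 : ℂ)) hρ hLd hL0
    (by simp)
  obtain ⟨t, htd, -, ht⟩ := exists_lift_pow (n := 2) two_ne_zero
    (u := (Lf w - 1) ^ (1 / 2 : ℂ)) (h := fun z => Lf z - 1) hρ (hLd.sub_const 1) hL1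
    (by simp)
  have hst : ∀ z ∈ ball w ρ, (s z - t z) * (s z + t z) = 1 := by
    intro z hz
    have e1 := hs z hz
    have e2 := ht z hz
    have : (s z - t z) * (s z + t z) = s z ^ 2 - t z ^ 2 := by ring
    rw [this, e1, e2]; ring
  have hst0 : ∀ z ∈ ball w ρ, s z - t z ≠ 0 := fun z hz h => by
    have := hst z hz
    rw [h, zero_mul] at this
    exact zero_ne_one this
  obtain ⟨φ, hφd, -, hφ⟩ := exists_lift_exp (u := Complex.log (s w - t w)) (h := fun z => s z - t z)
    hρ (hsd.sub htd) hst0 (Complex.exp_log (hst0 w hw))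
  have hφ2 : ∀ z ∈ ball w ρ, Complex.exp (-φ z) = s z + t z := by
    intro z hz
    rw [Complex.exp_neg, hφ z hz]
    exact inv_eq_of_mul_eq_one_right (hst z hz)
  have hcosh : ∀ z ∈ ball w ρ, Complex.cosh (2 * φ z) = 2 * Lf z - 1 := by
    intro z hz
    have e1 : Complex.cosh (φ z) = s z := by
      rw [Complex.cosh, hφ z hz, hφ2 z hz]; ring
    rw [Complex.cosh_two_mul, Complex.sinh_sq, e1, hs z hz]; ring
  -- the image of `φ` contains no disc of radius `2`
  have hbl := bloch (R := 2) hρ hφd (by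
    intro a
    obtain ⟨b, hb, m, hm⟩ := exists_ccosh_odd a
    refine ⟨b, hb, fun z hz hzb => ?_⟩
    have e1 := hcosh z hz
    rw [hzb, hm] at e1
    exact hLint z hz m (by linear_combination (-1 / 2) * e1))
  have hφw : HasDerivAt φ (deriv φ w) w :=
    (hφd.differentiableAt (isOpen_ball.mem_nhds hw)).hasDerivAt
  have hhw' : HasDerivAt h (deriv h w) w :=
    (hhd.differentiableAt (isOpen_ball.mem_nhds hw)).hasDerivAt
  -- the derivative of `Lf`
  have hLw : deriv h w / (2 * Real.pi * I) = Complex.sinh (2 * φ w) * deriv φ w := by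
    have e1 : HasDerivAt (fun z => (Complex.cosh (2 * φ z) + 1) / 2)
        (Complex.sinh (2 * φ w) * deriv φ w) w := by
      have := ((hφw.const_mul 2).ccosh.add_const 1).div_const 2
      have e0 : Complex.sinh (2 * φ w) * deriv φ w =
          Complex.sinh (2 * φ w) * (2 * deriv φ w) / 2 := by ring
      rw [e0]
      exact this
    have e2 : HasDerivAt Lf (deriv h w / (2 * Real.pi * I)) w := hhw'.div_const _
    refine e2.unique (e1.congr_of_eventuallyEq ?_)
    filter_upwards [isOpen_ball.mem_nhds hw] with z hz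
    rw [hcosh z hz]; ring
  -- the derivative of `F`
  have hF : deriv F w / F w = deriv h w := by
    have e1 : HasDerivAt F (Complex.exp (h w) * deriv h w) w := by
      refine (hhw'.cexp).congr_of_eventuallyEq ?_
      filter_upwards [isOpen_ball.mem_nhds hw] with z hz
      exact (hh z hz).symm
    rw [e1.deriv, hh w hw, mul_div_cancel_left₀ _ (h0 w hw)]
  -- bound of `sinh`
  have hsinh : ‖Complex.sinh (2 * φ w)‖ ≤ 2 * ‖Lf w‖ + 2 := by
    have e1 : ‖Complex.sinh (2 * φ w)‖ ^ 2 ≤ (2 * ‖Lf w‖ + 2) ^ 2 := by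
      rw [← norm_pow, Complex.sinh_sq, hcosh w hw]
      have e2 : ‖(2 * Lf w - 1) ^ 2 - 1‖ ≤ ‖(2 * Lf w - 1)‖ ^ 2 + 1 := by
        have := norm_sub_le ((2 * Lf w - 1) ^ 2) 1
        rwa [norm_pow, norm_one] at this
      have e3 : ‖2 * Lf w - 1‖ ≤ 2 * ‖Lf w‖ + 1 := by
        have := norm_sub_le (2 * Lf w) 1
        rwa [norm_mul, norm_one, Complex.norm_ofNat] at this
      have e4 := norm_nonneg (2 * Lf w - 1)
      have e5 := norm_nonneg (Lf w)
      nlinarith
    exact (pow_le_pow_iff_left₀ (norm_nonneg _) (by positivity) two_ne_zero).1 e1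
  have hLfn : ‖Lf w‖ ≤ (|Real.log ‖F w‖| + Real.pi) / (2 * Real.pi) := by
    rw [hLf]
    simp only
    rw [norm_div, hhw]
    have e1 : ‖(2 * Real.pi * I : ℂ)‖ = 2 * Real.pi := by
      rw [norm_mul, norm_mul, Complex.norm_I, mul_one, Complex.norm_ofNat, Complex.norm_real,
        Real.norm_of_nonneg Real.pi_pos.le]
    rw [e1]
    apply div_le_div_of_nonneg_right _ (by positivity)
    refine (Complex.norm_le_abs_re_add_abs_im _).trans ?_
    rw [Complex.log_re, Complex.log_im]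
    exact add_le_add le_rfl (Complex.abs_arg_le_pi _)
  have hfin : deriv h w = 2 * Real.pi * I * (Complex.sinh (2 * φ w) * deriv φ w) := by
    rw [← hLw]; field_simp
  rw [hF, hfin, norm_mul (2 * Real.pi * I : ℂ), norm_mul (Complex.sinh _)]
  have e1 : ‖(2 * Real.pi * I : ℂ)‖ = 2 * Real.pi := by
    rw [norm_mul, norm_mul, Complex.norm_I, mul_one, Complex.norm_ofNat, Complex.norm_real,
      Real.norm_of_nonneg Real.pi_pos.le]
  rw [e1]
  set A := |Real.log ‖F w‖| with hA
  have hA0 : 0 ≤ A := abs_nonneg _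
  have hpi1 := Real.pi_gt_d2
  have hpi2 := Real.pi_lt_d2
  have e2 : ‖Complex.sinh (2 * φ w)‖ ≤ (A + Real.pi) / Real.pi + 2 := by
    refine hsinh.trans ?_
    have : 2 * ((A + Real.pi) / (2 * Real.pi)) = (A + Real.pi) / Real.pi := by
      field_simp
    linarith
  calc 2 * Real.pi * (‖Complex.sinh (2 * φ w)‖ * ‖deriv φ w‖)
      ≤ 2 * Real.pi * (((A + Real.pi) / Real.pi + 2) * (96 * 2 / ρ)) := by gcongr
    _ = (384 / ρ) * (A + 3 * Real.pi) := by field_simp; ring
    _ ≤ (384 / ρ) * (10 * (1 + A)) := by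
        gcongr
        linarith
    _ ≤ 4000 / ρ * (1 + A) := by
        have : 0 ≤ (1 + A) / ρ := by positivity
        have h3 : (384 / ρ) * (10 * (1 + A)) = 3840 * ((1 + A) / ρ) := by ring
        have h4 : 4000 / ρ * (1 + A) = 4000 * ((1 + A) / ρ) := by ring
        rw [h3, h4]; linarith

end Pool.Agent.helper54.CR
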