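import Pool.Agent.helper54.CR.Attr
import Pool.Agent.helper54.CR.Landau
import Pool.Agent.lead.Multibrot

/-!
# The close return criterion
-/

set_option autoImplicit false

open Finset Metric Set Filter Topology

namespace Pool.Agent.helper54.CR

open Pool.Agent.helper16.Multibrot

variable {n : ℕ}

/-- derivative of the critical orbit with respect to the parameter -/
noncomputable def yy (n : ℕ) (c : ℂ) : ℕ → ℂ
  | 0 => 0
  | j + 1 => n * zz n c j ^ (n - 1) * yy n c j + 1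

lemma hasDerivAt_zz (c : ℂ) (j : ℕ) : HasDerivAt (fun c => zz n c j) (yy n c j) c := by
  induction j with
  | zero =>
    have : (fun c => zz n c 0) = fun _ => (0 : ℂ) := by
      funext c; rfl
    rw [this, yy]
    exact hasDerivAt_const c 0
  | succ j ih =>
    have : (fun c => zz n c (j + 1)) = fun c => zz n c j ^ n + c := by
      funext c; exact zz_succ j
    rw [this, yy]
    have h1 := (ih.pow n).add (hasDerivAt_id c)
    exact h1

lemma et_EE {c : ℂ} (hn : 0 < n) (hz : ∀ j, zz n c (j + 1) ≠ 0) (t : ℕ) :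
    et n (EE n c) t = c * yy n c (t + 1) / zz n c (t + 1) := by
  have hc : c ≠ 0 := by rw [← zz_one (c := c) hn]; exact hz 0
  have hn' : (n : ℂ) ≠ 0 := by exact_mod_cast hn.ne'
  induction t with
  | zero =>
    have : yy n c 1 = 1 := by rw [yy, yy]; ring
    rw [et, zero_add, zz_one hn, this, mul_one, div_self hc]
  | succ t ih =>
    rw [et, ih, Lam_EE hn hz]
    have h0 : yy n c (t + 1 + 1) = n * zz n c (t + 1) ^ (n - 1) * yy n c (t + 1) + 1 := rfl
    have h1 := hz t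
    have h2 := hz (t + 1)
    have h3 : zz n c (t + 1) ^ n = zz n c (t + 1) ^ (n - 1) * zz n c (t + 1) := by
      rw [← pow_succ, Nat.sub_add_cancel hn]
    have h4 : zz n c (t + 2) = zz n c (t + 1) ^ n + c := zz_succ _
    rw [h0]
    have h5 : n * zz n c (t + 1) ^ n / zz n c (t + 2) *
        (c * yy n c (t + 1) / zz n c (t + 1) - 1 / n) + 1 =
        (c * (n * (zz n c (t + 1) ^ n / zz n c (t + 1)) * yy n c (t + 1)) -
          zz n c (t + 1) ^ n + zz n c (t + 2)) / zz n c (t + 2) := by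
      field_simp
    rw [h5, h4, h3, mul_div_cancel_right₀ _ h1]
    congr 1
    ring

/-- bound of the critical orbit in the Multibrot set -/
lemma norm_zz_pow_le {c : ℂ} (hn : 2 ≤ n) (hc : c ∈ multibrot n) (j : ℕ) :
    ‖zz n c j‖ ^ (n - 1) ≤ 2 := by
  by_contra h
  rw [not_le] at h
  have h1 : ‖c‖ ≤ ‖zz n c j‖ := by
    by_contra h2
    rw [not_le] at h2
    have h3 : ‖zz n c j‖ ^ (n - 1) ≤ ‖c‖ ^ (n - 1) :=
      pow_le_pow_left₀ (norm_nonneg _) h2.le _
    have h4 := Pool.Agent.LeadMultibrot.norm_pow_le_two hn hc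
    linarith
  exact hc (Pool.Agent.LeadMultibrot.escape_zero hn j h1 h)

/-- `p` is a record close return of the critical orbit. -/
def RecordReturn (n : ℕ) (c : ℂ) (p : ℕ) : Prop :=
  1 ≤ p ∧ n * ‖zz n c p‖ ^ n < ‖c‖ ∧
    ∀ j, 1 ≤ j → j < p → ‖DD n c (j - 1)‖ / ‖zz n c j‖ < ‖DD n c (p - 1)‖ / ‖zz n c p‖

lemma recordReturn_of {c : ℂ} (hn : 0 < n) (hz : ∀ j, zz n c (j + 1) ≠ 0) {t : ℕ}
    (hr : RecE n (EE n c) t) (ht : ‖EE n c t‖ < 1) : RecordReturn n c (t + 1) := by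
  have hc0 : c ≠ 0 := by rw [← zz_one (c := c) hn]; exact hz 0
  have hcpos : 0 < ‖c‖ := norm_pos_iff.2 hc0
  refine ⟨by omega, ?_, ?_⟩
  · rw [EE, norm_div, norm_mul, Complex.norm_natCast, norm_pow, div_lt_one hcpos] at ht
    exact ht
  · intro j hj1 hj2
    have h1 := hr (j - 1) (by omega)
    rw [Lp_EE hn hz, Lp_EE hn hz, norm_div, norm_div, norm_mul, norm_mul,
      Nat.sub_add_cancel hj1] at h1
    rw [Nat.add_sub_cancel]
    have h2 : ‖DD n c (j - 1)‖ * ‖c‖ / ‖zz n c j‖ = ‖DD n c (j - 1)‖ / ‖zz n c j‖ * ‖c‖ := by ring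
    have h3 : ‖DD n c t‖ * ‖c‖ / ‖zz n c (t + 1)‖ = ‖DD n c t‖ / ‖zz n c (t + 1)‖ * ‖c‖ := by ring
    rw [h2, h3] at h1
    exact lt_of_mul_lt_mul_right h1 hcpos.le

/-- The Landau bound for the logarithmic parameter derivative. -/
lemma landau_et {c : ℂ} {ρ : ℝ} (hn : 0 < n) (hρ : 0 < ρ)
    (hzz : ∀ c' ∈ ball c ρ, ∀ j, zz n c' (j + 1) ≠ 0) (t : ℕ) :
    ‖n * et n (EE n c) t - 1‖ ≤
      ‖c‖ * (4000 / ρ * (1 + |Real.log (‖EE n c t‖ / n)|)) := by
  have hn' : (n : ℂ) ≠ 0 := by exact_mod_cast hn.ne'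
  have hz := hzz c (mem_ball_self hρ)
  have hc0 : c ≠ 0 := by rw [← zz_one (c := c) hn]; exact hz 0
  have hcpos : 0 < ‖c‖ := norm_pos_iff.2 hc0
  set F : ℂ → ℂ := fun c' => zz n c' (t + 1) ^ n / (-c') with hF
  have hFd : DifferentiableOn ℂ F (ball c ρ) := by
    intro c' hc'
    have hc'0 : c' ≠ 0 := by rw [← zz_one (c := c') hn]; exact hzz c' hc' 0
    exact (((hasDerivAt_zz c' (t + 1)).differentiableAt.pow n).div
      differentiableAt_id.neg (neg_ne_zero.2 hc'0)).differentiableWithinAt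
  have h0 : ∀ c' ∈ ball c ρ, F c' ≠ 0 := by
    intro c' hc'
    have hc'0 : c' ≠ 0 := by rw [← zz_one (c := c') hn]; exact hzz c' hc' 0
    exact div_ne_zero (pow_ne_zero _ (hzz c' hc' t)) (neg_ne_zero.2 hc'0)
  have h1 : ∀ c' ∈ ball c ρ, F c' ≠ 1 := by
    intro c' hc' h
    have hc'0 : c' ≠ 0 := by rw [← zz_one (c := c') hn]; exact hzz c' hc' 0
    rw [hF] at h
    simp only at h
    rw [div_eq_iff (neg_ne_zero.2 hc'0), one_mul] at h
    apply hzz c' hc' (t + 1)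
    rw [zz_succ (t + 1), h]; ring
  have hl := landau hρ hFd h0 h1
  have hFc : HasDerivAt F ((n * zz n c (t + 1) ^ (n - 1) * yy n c (t + 1) * (-c) -
      zz n c (t + 1) ^ n * (-1)) / (-c) ^ 2) c :=
    ((hasDerivAt_zz c (t + 1)).pow n).div (hasDerivAt_id c).neg (neg_ne_zero.2 hc0)
  have hzt := hz t
  have hp : zz n c (t + 1) ^ n = zz n c (t + 1) ^ (n - 1) * zz n c (t + 1) := by
    rw [← pow_succ, Nat.sub_add_cancel hn]
  have hq : deriv F c / F c = (n * et n (EE n c) t - 1) / c := by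
    rw [hFc.deriv, hF, et_EE hn hz]
    simp only
    rw [hp]
    have := pow_ne_zero (n - 1) hzt
    field_simp
    ring
  have hFn : ‖F c‖ = ‖EE n c t‖ / n := by
    rw [EE, hF, norm_div (n * zz n c (t + 1) ^ n : ℂ), norm_mul, Complex.norm_natCast, norm_pow]
    simp only
    rw [norm_div, norm_pow, norm_neg]
    field_simp
  rw [hq, hFn, norm_div, div_le_iff₀ hcpos] at hl
  linarith

/-- The close return criterion, effective form. -/
theorem criterion {c : ℂ} (hn : 2 ≤ n) (hc : c ∈ multibrot n) (hD : KK ≤ n * ‖c‖ ^ (n - 1))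
    {N : ℕ} (hN : 1 ≤ N)
    (hgap : ∀ p q : ℕ, q ≤ p → p ≤ N → RecordReturn n c q → RecordReturn n c p →
      ‖DD n c q‖ * (‖zz n c p‖ / ‖zz n c q‖) ^ n ∉ Icc (1 / KK) KK) :
    ∃ c' ∈ hyperbolic n, ‖c' - c‖ ≤ 10 ^ 9 * Real.log n / (N : ℝ) ^ 4 := by
  by_contra hcl
  push Not at hcl
  have hKK := KK_ge
  have hn0 : 0 < n := by omega
  have hnR : (2 : ℝ) ≤ n := by exact_mod_cast hn
  have hn' : (n : ℂ) ≠ 0 := by exact_mod_cast hn0.ne'
  have hNR : (1 : ℝ) ≤ N := by exact_mod_cast hN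
  have hc2 := Pool.Agent.LeadMultibrot.norm_pow_le_two hn hc
  have hnK : KK ≤ 2 * n := by
    have : (n : ℝ) * ‖c‖ ^ (n - 1) ≤ n * 2 := mul_le_mul_of_nonneg_left hc2 (by linarith)
    linarith
  have hlog5 : 5 ≤ Real.log n := by
    rw [Real.le_log_iff_exp_le (by linarith)]
    have h1 : Real.exp 5 = Real.exp 1 ^ 5 := by rw [← Real.exp_nat_mul]; norm_num
    have h2 : Real.exp 1 ≤ 3 := by
      have := Real.exp_one_lt_d9
      linarith
    have h3 : Real.exp 1 ^ 5 ≤ 3 ^ 5 := pow_le_pow_left₀ (Real.exp_pos _).le h2 5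
    rw [h1]
    norm_num at h3
    linarith
  set ρ := 10 ^ 9 * Real.log n / (N : ℝ) ^ 4 with hρdef
  have hρ : 0 < ρ := by positivity
  have hnh : ∀ c' ∈ ball c ρ, c' ∉ hyperbolic n := by
    intro c' hc' hh
    have h1 := hcl c' hh
    rw [mem_ball, dist_eq_norm] at hc'
    linarith
  have hzz : ∀ c' ∈ ball c ρ, ∀ j, zz n c' (j + 1) ≠ 0 := fun c' hc' j hj =>
    hnh c' hc' (hyperbolic_of_zero hn hj)
  have hcb : c ∈ ball c ρ := mem_ball_self hρ
  have hz := hzz c hcb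
  have hc0 : c ≠ 0 := by rw [← zz_one (c := c) hn0]; exact hz 0
  have hcpos : 0 < ‖c‖ := norm_pos_iff.2 hc0
  have ho := orb hn0 hz
  have hE0 : KK ≤ ‖EE n c 0‖ := by
    have h1 : ‖EE n c 0‖ = n * ‖c‖ ^ (n - 1) := by
      rw [EE, zero_add, zz_one hn0, norm_div, norm_mul, Complex.norm_natCast, norm_pow]
      have h2 : ‖c‖ ^ n = ‖c‖ ^ (n - 1) * ‖c‖ := by
        rw [← pow_succ, Nat.sub_add_cancel hn0]
      rw [h2]; field_simp
    rw [h1]; exact hD
  have hEn : ∀ j, ‖EE n c j‖ = n * ‖zz n c (j + 1)‖ ^ n / ‖c‖ := by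
    intro j
    rw [EE, norm_div, norm_mul, Complex.norm_natCast, norm_pow]
  have hgap' : ∀ t < N, GapAt n (EE n c) t := by
    intro t ht s hs hrs hrt h1 h2
    have h3 := hgap (t + 1) (s + 1) (by omega) (by omega) (recordReturn_of hn0 hz hrs h1)
      (recordReturn_of hn0 hz hrt h2)
    rw [EE_Lp hn0 hz, norm_mul, norm_pow, norm_div]
    rw [Set.mem_Icc, not_and_or, not_le, not_le] at h3
    exact h3
  -- the number of blocks
  set k := Nat.log 2 ((N + 2) / 3) with hk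
  have hk1 : 2 ^ k ≤ (N + 2) / 3 := Nat.pow_log_le_self 2 (by omega)
  have hk2 : (N + 2) / 3 < 2 ^ (k + 1) := Nat.lt_pow_succ_log_self (by norm_num) _
  have hk3 : 3 * 2 ^ k ≤ N + 2 := by omega
  have hk4 : N < 6 * 2 ^ k := by
    rw [pow_succ] at hk2
    omega
  rcases good_times ho hnK hE0 hgap' hk3 with ⟨t, hg, -, h2⟩ | ⟨t, hg, ht1, ht2⟩
  · exact hnh c hcb (attracting hn hz hg h2)
  set X := ‖et n (EE n c) t‖ with hX
  have hX1 : 1 ≤ X := hg.h1
  -- bounds of the norm of the parameter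
  have hcle : ‖c‖ ≤ 2 := by
    by_contra h
    rw [not_le] at h
    have h3 : (2 : ℝ) < ‖c‖ ^ (n - 1) := by
      calc (2 : ℝ) < ‖c‖ := h
        _ ≤ ‖c‖ ^ (n - 1) := le_self_pow₀ (by linarith) (by omega)
    linarith
  have hcge : 1 / n ≤ ‖c‖ := by
    by_contra h
    rw [not_le] at h
    have h1 : ‖c‖ ≤ 1 := h.le.trans (by rw [div_le_one (by linarith)]; linarith)
    have h2 : ‖c‖ ^ (n - 1) ≤ ‖c‖ ^ 1 := pow_le_pow_of_le_one hcpos.le h1 (by omega)
    rw [pow_one] at h2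
    have h3 : (n : ℝ) * ‖c‖ ^ (n - 1) ≤ n * (1 / n) := by gcongr; linarith
    rw [mul_one_div_cancel (by positivity)] at h3
    linarith
  have hE4 : ‖EE n c t‖ ≤ 4 * n / ‖c‖ := by
    rw [hEn]
    apply div_le_div_of_nonneg_right _ hcpos.le
    have h1 := norm_zz_pow_le hn hc (t + 1)
    have h2 : ‖zz n c (t + 1)‖ ≤ 2 := by
      by_contra h
      rw [not_le] at h
      have h3 : (2 : ℝ) < ‖zz n c (t + 1)‖ ^ (n - 1) := by
        calc (2 : ℝ) < ‖zz n c (t + 1)‖ := h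
          _ ≤ ‖zz n c (t + 1)‖ ^ (n - 1) := by
            apply le_self_pow₀ (by linarith) (by omega)
      linarith
    have h4 : ‖zz n c (t + 1)‖ ^ n = ‖zz n c (t + 1)‖ ^ (n - 1) * ‖zz n c (t + 1)‖ := by
      rw [← pow_succ, Nat.sub_add_cancel hn0]
    have h5 : ‖zz n c (t + 1)‖ ^ n ≤ 2 * 2 := by
      rw [h4]
      exact mul_le_mul h1 h2 (norm_nonneg _) (by norm_num)
    nlinarith
  have hlog3 : Real.log (4 * n / ‖c‖) ≤ 3 * Real.log n := by
    have h1 : 4 * n / ‖c‖ ≤ (n : ℝ) ^ 3 := by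
      rw [div_le_iff₀ hcpos]
      have h2 : (n : ℝ) ^ 3 * (1 / n) ≤ n ^ 3 * ‖c‖ := by gcongr
      have h3 : (n : ℝ) ^ 3 * (1 / n) = n * n := by field_simp
      nlinarith
    have h4 := Real.log_le_log (by positivity) h1
    rwa [Real.log_pow, Nat.cast_ofNat] at h4
  have hEpos : 0 < ‖EE n c t‖ := norm_pos_iff.2 (ho.ne0 t)
  set Y := Real.sqrt X with hY
  have hY1 : 1 ≤ Y := by rw [hY]; exact Real.one_le_sqrt.2 hX1
  have hYX : Y ^ 2 = X := Real.sq_sqrt (by linarith)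
  have hlog : |Real.log (‖EE n c t‖ / n)| ≤ 4 * Real.log n + 4 * Y := by
    rw [Real.log_div hEpos.ne' (by positivity)]
    have h1 : Real.log ‖EE n c t‖ ≤ 3 * Real.log n := (Real.log_le_log hEpos hE4).trans hlog3
    have h2 : -(4 * Y) ≤ Real.log ‖EE n c t‖ := by
      rcases ht2 with ht | ht
      · have := Real.log_nonneg ht
        linarith
      · have hL0 : 0 < ‖Lp n (EE n c) t‖ := norm_pos_iff.2 (Lp_ne_zero ho t)
        rw [norm_mul] at ht
        have h3 := Real.log_nonneg ht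
        rw [Real.log_mul hEpos.ne' hL0.ne'] at h3
        have h4 : Real.log ‖Lp n (EE n c) t‖ ≤ Real.log (X ^ 2) :=
          Real.log_le_log hL0 hg.hv
        have h5 : Real.log (X ^ 2) = 4 * Real.log Y := by
          rw [Real.log_pow, hY, Real.log_sqrt (by linarith)]; push_cast; ring
        have h6 : Real.log Y ≤ Y - 1 := Real.log_le_sub_one_of_pos (by linarith)
        linarith
    rw [abs_le]
    constructor <;> linarith
  have hl := landau_et hn0 hρ hzz t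
  have h2 : n * X - 1 ≤ ‖n * et n (EE n c) t - 1‖ := by
    have := norm_sub_norm_le (n * et n (EE n c) t) 1
    rwa [norm_mul, Complex.norm_natCast, norm_one] at this
  have h3 : X ≤ n * X - 1 := by nlinarith
  have h4 : Y ^ 2 ≤ 2 * (4000 / ρ * (1 + (4 * Real.log n + 4 * Y))) := by
    rw [hYX]
    calc X ≤ ‖c‖ * (4000 / ρ * (1 + |Real.log (‖EE n c t‖ / n)|)) := by linarith
      _ ≤ 2 * (4000 / ρ * (1 + (4 * Real.log n + 4 * Y))) := by gcongr
  -- hence `Y` is small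
  have h5 : Y ≤ 40000 * Real.log n / ρ := by
    have h6 : 1 + (4 * Real.log n + 4 * Y) ≤ 5 * Real.log n * Y := by nlinarith
    have h7 : Y ^ 2 ≤ 40000 * Real.log n / ρ * Y := by
      calc Y ^ 2 ≤ 2 * (4000 / ρ * (1 + (4 * Real.log n + 4 * Y))) := h4
        _ ≤ 2 * (4000 / ρ * (5 * Real.log n * Y)) := by gcongr
        _ = _ := by ring
    have h8 : Y * Y ≤ 40000 * Real.log n / ρ * Y := by rw [← sq]; exact h7
    exact le_of_mul_le_mul_right h8 (by linarith)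
  have h6 : 40000 * Real.log n / ρ = (N : ℝ) ^ 4 / 25000 := by
    rw [hρdef]
    have : Real.log n ≠ 0 := by linarith
    field_simp
    norm_num
  -- but `Y` is large
  have hW : ((N : ℝ) / 6) ^ 4 < Y := by
    have h7 : (N : ℝ) / 6 < 2 ^ k := by
      rw [div_lt_iff₀ (by norm_num)]
      have : (N : ℝ) < 6 * 2 ^ k := by exact_mod_cast hk4
      linarith
    have h8 : ((N : ℝ) / 6) ^ 4 < (2 ^ k) ^ 4 := pow_lt_pow_left₀ h7 (by positivity) (by norm_num)
    refine h8.trans_le ?_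
    have h9 : ((2 : ℝ) ^ k) ^ 16 ≤ Y ^ 4 := by
      calc ((2 : ℝ) ^ k) ^ 16 = (2 ^ 16) ^ k := by rw [← pow_mul, ← pow_mul, mul_comm]
        _ ≤ (10 ^ 5) ^ k := pow_le_pow_left₀ (by norm_num) (by norm_num) k
        _ ≤ ‖Lp n (EE n c) t‖ := ht1
        _ ≤ X ^ 2 := hg.hv
        _ = Y ^ 4 := by rw [← hYX]; ring
    have h10 : ((2 : ℝ) ^ k) ^ 16 = (((2 : ℝ) ^ k) ^ 4) ^ 4 := (pow_mul ((2 : ℝ) ^ k) 4 4)
    rw [h10] at h9
    exact (pow_le_pow_iff_left₀ (by positivity) (by linarith) (by norm_num)).1 h9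
  rw [h6] at h5
  have h7 : ((N : ℝ) / 6) ^ 4 = (N : ℝ) ^ 4 / 1296 := by ring
  rw [h7] at hW
  have h8 : 0 < (N : ℝ) ^ 4 := by positivity
  linarith

/-- The close return criterion, qualitative form. -/
theorem criterion_closure {c : ℂ} (hn : 2 ≤ n) (hc : c ∈ multibrot n)
    (hD : KK ≤ n * ‖c‖ ^ (n - 1))
    (hgap : ∀ p q : ℕ, q ≤ p → RecordReturn n c q → RecordReturn n c p →
      ‖DD n c q‖ * (‖zz n c p‖ / ‖zz n c q‖) ^ n ∉ Icc (1 / KK) KK) :
    c ∈ closure (hyperbolic n) := by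
  rw [Metric.mem_closure_iff]
  intro ε hε
  have hlim : Tendsto (fun N : ℕ => 10 ^ 9 * Real.log n / (N : ℝ) ^ 4) atTop (𝓝 0) := by
    apply Tendsto.const_div_atTop
    exact (tendsto_pow_atTop (by norm_num)).comp tendsto_natCast_atTop_atTop
  obtain ⟨N, hN1, hN2⟩ := ((eventually_ge_atTop 1).and (hlim.eventually_lt_const hε)).exists
  obtain ⟨c', hc', hd⟩ := criterion hn hc hD hN1 (fun p q h1 _ h3 h4 => hgap p q h1 h3 h4)
  refine ⟨c', hc', ?_⟩
  rw [dist_comm, dist_eq_norm]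
  linarith

end Pool.Agent.helper54.CR
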