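import Pool.Agent.helper54.CR.Free
import Pool.Agent.helper98.ILF.ExpGood
import Pool.Agent.helper16.Multibrot.Defs

/-!
# The critical orbit of `z ^ n + c`, and attracting cycles
-/

set_option autoImplicit false

open Finset Metric Set

namespace Pool.Agent.helper54.CR

open Pool.Agent.helper98.ILF Pool.Agent.helper16.Multibrot

/-- the map -/
def fm (n : ℕ) (c : ℂ) (z : ℂ) : ℂ := z ^ n + c

/-- the critical orbit -/
def zz (n : ℕ) (c : ℂ) (j : ℕ) : ℂ := (fm n c)^[j] 0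

/-- the normalised critical orbit of `z ^ n + c` -/
noncomputable def EE (n : ℕ) (c : ℂ) (j : ℕ) : ℂ := n * zz n c (j + 1) ^ n / c

/-- the derivative of the `j`-th iterate at `c` -/
noncomputable def DD (n : ℕ) (c : ℂ) (j : ℕ) : ℂ := deriv ((fm n c)^[j]) c

variable {n : ℕ} {c : ℂ}

lemma zz_succ (j : ℕ) : zz n c (j + 1) = zz n c j ^ n + c := by
  rw [zz, Function.iterate_succ_apply']; rfl

lemma zz_one (hn : 0 < n) : zz n c 1 = c := by
  rw [zz_succ, zz, Function.iterate_zero_apply, zero_pow hn.ne', zero_add]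

lemma fm_iterate_c (hn : 0 < n) (j : ℕ) : (fm n c)^[j] c = zz n c (j + 1) := by
  rw [zz, Function.iterate_succ_apply]
  congr 1
  rw [fm, zero_pow hn.ne', zero_add]

lemma fm_differentiable (n : ℕ) (c : ℂ) : Differentiable ℂ (fm n c) := by
  unfold fm; fun_prop

lemma deriv_fm (n : ℕ) (c z : ℂ) : deriv (fm n c) z = n * z ^ (n - 1) := by
  have : fm n c = fun z => z ^ n + c := rfl
  rw [this, deriv_add_const]; simp

lemma deriv_iterate_succ (n : ℕ) (c z : ℂ) (j : ℕ) :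
    deriv ((fm n c)^[j + 1]) z = n * ((fm n c)^[j] z) ^ (n - 1) * deriv ((fm n c)^[j]) z := by
  rw [Function.iterate_succ', deriv_comp]
  · rw [deriv_fm]
  · exact fm_differentiable n c _
  · exact (fm_differentiable n c).iterate j z

lemma DD_zero : DD n c 0 = 1 := by
  rw [DD, Function.iterate_zero]; exact deriv_id c

lemma DD_succ (hn : 0 < n) (j : ℕ) : DD n c (j + 1) = n * zz n c (j + 1) ^ (n - 1) * DD n c j := by
  rw [DD, deriv_iterate_succ, fm_iterate_c hn, DD]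

lemma one_add_EE (hc : c ≠ 0) (hn : 0 < n) (j : ℕ) :
    1 + EE n c j / n = zz n c (j + 2) / c := by
  have hn' : (n : ℂ) ≠ 0 := by exact_mod_cast hn.ne'
  rw [EE, zz_succ (j + 1)]
  field_simp
  ring

lemma orb (hn : 0 < n) (hz : ∀ j, zz n c (j + 1) ≠ 0) : Orb n (EE n c) := by
  have hc : c ≠ 0 := by rw [← zz_one (c := c) hn]; exact hz 0
  have hn' : (n : ℂ) ≠ 0 := by exact_mod_cast hn.ne'
  refine ⟨hn', ?_, ?_, ?_⟩
  · intro j
    rw [one_add_EE hc hn, EE, EE, zero_add, zz_one hn, div_pow]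
    field_simp
  · intro j
    rw [one_add_EE hc hn]
    exact div_ne_zero (hz _) hc
  · intro j
    rw [EE]
    exact div_ne_zero (mul_ne_zero hn' (pow_ne_zero _ (hz j))) hc

lemma Lam_EE (hn : 0 < n) (hz : ∀ j, zz n c (j + 1) ≠ 0) (j : ℕ) :
    Lam n (EE n c) j = n * zz n c (j + 1) ^ n / zz n c (j + 2) := by
  have hc : c ≠ 0 := by rw [← zz_one (c := c) hn]; exact hz 0
  have h1 := hz (j + 1)
  rw [Lam, one_add_EE hc hn, EE]
  field_simp

lemma Lp_EE (hn : 0 < n) (hz : ∀ j, zz n c (j + 1) ≠ 0) (j : ℕ) :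
    Lp n (EE n c) j = DD n c j * c / zz n c (j + 1) := by
  have hc : c ≠ 0 := by rw [← zz_one (c := c) hn]; exact hz 0
  induction j with
  | zero => rw [Lp, DD_zero, zero_add, zz_one hn, one_mul, div_self hc]
  | succ j ih =>
    have h1 := hz (j + 1)
    have h2 := hz j
    rw [Lp, ih, Lam_EE hn hz, DD_succ hn]
    have h3 : zz n c (j + 1) ^ n = zz n c (j + 1) ^ (n - 1) * zz n c (j + 1) := by
      rw [← pow_succ, Nat.sub_add_cancel hn]
    rw [h3]
    field_simp

lemma EE_Lp (hn : 0 < n) (hz : ∀ j, zz n c (j + 1) ≠ 0) (s t : ℕ) :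
    EE n c t * Lp n (EE n c) s = DD n c (s + 1) * (zz n c (t + 1) / zz n c (s + 1)) ^ n := by
  have hc : c ≠ 0 := by rw [← zz_one (c := c) hn]; exact hz 0
  have h1 := hz s
  rw [Lp_EE hn hz, EE, DD_succ hn, div_pow]
  have h3 : zz n c (s + 1) ^ n = zz n c (s + 1) ^ (n - 1) * zz n c (s + 1) := by
    rw [← pow_succ, Nat.sub_add_cancel hn]
  rw [h3]
  have h4 := pow_ne_zero (n - 1) h1
  field_simp

/-- a superattracting parameter -/
lemma hyperbolic_of_zero (hn : 2 ≤ n) {j : ℕ} (hj : zz n c (j + 1) = 0) : c ∈ hyperbolic n := by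
  refine ⟨0, j + 1, Nat.succ_pos j, hj, ?_⟩
  have h1 : deriv ((fm n c)^[j + 1]) 0 = 0 := by
    rw [Function.iterate_succ, deriv_comp]
    · rw [deriv_fm, zero_pow (by omega), mul_zero, mul_zero]
    · exact (fm_differentiable n c).iterate j _
    · exact fm_differentiable n c _
  have h2 : (fun w : ℂ => w ^ n + c)^[j + 1] = (fm n c)^[j + 1] := rfl
  rw [h2, h1, norm_zero]
  exact one_pos

/-- shadowing in the dynamical plane -/
lemma iterate_shadow (hn : 0 < n) (hz : ∀ j, zz n c (j + 1) ≠ 0) (y : ℂ) (s : ℕ) :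
    (fm n c)^[s + 1] y = zz n c (s + 1) * (1 + V n (EE n c) (n * y ^ n / c) s / n) := by
  have hc : c ≠ 0 := by rw [← zz_one (c := c) hn]; exact hz 0
  have hn' : (n : ℂ) ≠ 0 := by exact_mod_cast hn.ne'
  induction s with
  | zero =>
    rw [zero_add, Function.iterate_one, zz_one hn, V, fm]
    field_simp
    ring
  | succ s ih =>
    rw [Function.iterate_succ_apply', ih, fm, V, Lam_EE hn hz, mul_pow]
    have h1 := hz (s + 1)
    have h2 : zz n c (s + 1 + 1) = zz n c (s + 1) ^ n + c := zz_succ _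
    set a := (1 + V n (EE n c) (n * y ^ n / c) s / n) ^ n with ha
    have h3 : zz n c (s + 1 + 1) * (1 + n * zz n c (s + 1) ^ n / zz n c (s + 2) * (a - 1) / n) =
        zz n c (s + 1 + 1) + zz n c (s + 1) ^ n * (a - 1) := by
      field_simp
    rw [h3, h2]
    ring

theorem attracting (hn : 2 ≤ n) (hz : ∀ j, zz n c (j + 1) ≠ 0) {t : ℕ}
    (hg : Good n (EE n c) t) (hsmall : ‖EE n c t * Lp n (EE n c) t‖ < 1 / KK) :
    c ∈ hyperbolic n := by
  have hn0 : 0 < n := by omega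
  have hKK := KK_ge
  have ho := orb hn0 hz
  have hc : c ≠ 0 := by rw [← zz_one (c := c) hn0]; exact hz 0
  have hnR : (2 : ℝ) ≤ n := by exact_mod_cast hn
  have hKs : 1 / KK ≤ 1 / 1000000 := one_div_le_one_div_of_le (by norm_num) (by linarith)
  set p := ‖zz n c (t + 1)‖ with hp
  have hp0 : 0 < p := norm_pos_iff.2 (hz t)
  have he1 : Real.exp 1 < 3 := by
    have := Real.exp_one_lt_d9
    linarith
  -- bounds for the orbit of a point of the disc
  have key : ∀ y ∈ closedBall (0 : ℂ) ((1 + 1 / n) * p),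
      (∑ s ∈ range t, ‖(n * y ^ n / c) * Lp n (EE n c) s‖ ≤ 1 / 200) ∧
      ‖(n * y ^ n / c) * Lp n (EE n c) t‖ ≤ 3 / 1000000 := by
    intro y hy
    rw [mem_closedBall, dist_zero_right] at hy
    have hx : ‖n * y ^ n / c‖ ≤ 3 * ‖EE n c t‖ := by
      rw [EE, norm_div, norm_div, norm_mul, norm_mul, norm_pow, norm_pow, ← hp]
      have h1 : ‖y‖ ^ n ≤ 3 * p ^ n := by
        calc ‖y‖ ^ n ≤ ((1 + 1 / n) * p) ^ n := pow_le_pow_left₀ (norm_nonneg _) hy n
          _ = (1 + 1 / n) ^ n * p ^ n := mul_pow _ _ _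
          _ ≤ 3 * p ^ n := by
            have h2 := one_add_div_pow_le (n := n) (x := 1) zero_le_one n le_rfl
            have h3 : 0 ≤ p ^ n := by positivity
            exact mul_le_mul_of_nonneg_right (h2.trans he1.le) h3
      have h4 : 0 ≤ ‖(n : ℂ)‖ / ‖c‖ := by positivity
      calc ‖(n : ℂ)‖ * ‖y‖ ^ n / ‖c‖ = ‖(n : ℂ)‖ / ‖c‖ * ‖y‖ ^ n := by ring
        _ ≤ ‖(n : ℂ)‖ / ‖c‖ * (3 * p ^ n) := mul_le_mul_of_nonneg_left h1 h4
        _ = _ := by ring
    have hprod : ‖n * y ^ n / c‖ * ‖Lp n (EE n c) t‖ ≤ 3 / 1000000 := by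
      rw [norm_mul] at hsmall
      have h1 : ‖n * y ^ n / c‖ * ‖Lp n (EE n c) t‖ ≤ 3 * ‖EE n c t‖ * ‖Lp n (EE n c) t‖ :=
        mul_le_mul_of_nonneg_right hx (norm_nonneg _)
      linarith
    refine ⟨?_, ?_⟩
    · have h2 : ∑ s ∈ range t, ‖(n * y ^ n / c) * Lp n (EE n c) s‖ =
          ‖n * y ^ n / c‖ * ∑ s ∈ range t, ‖Lp n (EE n c) s‖ := by
        rw [mul_sum]; exact sum_congr rfl fun _ _ => norm_mul _ _
      rw [h2]
      have h3 : ‖n * y ^ n / c‖ * ∑ s ∈ range t, ‖Lp n (EE n c) s‖ ≤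
          ‖n * y ^ n / c‖ * (1 / 10 ^ 5 * ‖Lp n (EE n c) t‖) :=
        mul_le_mul_of_nonneg_left hg.hL (norm_nonneg _)
      linarith
    · rw [norm_mul]; exact hprod
  have hmaps : MapsTo ((fm n c)^[t + 1]) (closedBall (0 : ℂ) ((1 + 1 / n) * p))
      (closedBall (0 : ℂ) ((1 + 1 / n) * p)) := by
    intro y hy
    obtain ⟨h1, h2⟩ := key y hy
    have h3 := (V_bounds ho h1 t le_rfl).2
    rw [mem_closedBall, dist_zero_right, iterate_shadow hn0 hz, norm_mul, ← hp, mul_comm]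
    apply mul_le_mul_of_nonneg_right _ hp0.le
    refine (norm_add_le _ _).trans ?_
    rw [norm_one, norm_div, Complex.norm_natCast]
    gcongr
    linarith
  -- the derivative
  have hder : ∀ y ∈ closedBall (0 : ℂ) ((1 + 1 / n) * p),
      ‖deriv ((fm n c)^[t + 1]) y‖ ≤ 1 / 2 := by
    intro y hy
    obtain ⟨h1, h2⟩ := key y hy
    set x := n * y ^ n / c with hx
    have hind : ∀ s ≤ t, ‖deriv ((fm n c)^[s + 1]) y‖ ≤
        n * ‖y‖ ^ (n - 1) * ‖DD n c s‖ * Real.exp (∑ i ∈ range s, ‖V n (EE n c) x i‖) := by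
      intro s
      induction s with
      | zero =>
        intro _
        rw [zero_add, Function.iterate_one, deriv_fm, DD_zero]
        simp
      | succ s ih =>
        intro hs
        have ih := ih (by omega)
        rw [deriv_iterate_succ, iterate_shadow hn0 hz, norm_mul, norm_mul, norm_pow, norm_mul,
          mul_pow, DD_succ hn0, norm_mul, norm_mul, norm_pow, sum_range_succ, Real.exp_add,
          Complex.norm_natCast]
        have h5 : ‖1 + V n (EE n c) x s / n‖ ^ (n - 1) ≤ Real.exp ‖V n (EE n c) x s‖ := by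
          have h6 : ‖1 + V n (EE n c) x s / n‖ ≤ 1 + ‖V n (EE n c) x s‖ / n := by
            have := norm_add_le (1 : ℂ) (V n (EE n c) x s / n)
            rwa [norm_one, norm_div, Complex.norm_natCast] at this
          exact (pow_le_pow_left₀ (norm_nonneg _) h6 _).trans
            (one_add_div_pow_le (norm_nonneg _) (n - 1) (by omega))
        calc (n : ℝ) * (‖zz n c (s + 1)‖ ^ (n - 1) * ‖1 + V n (EE n c) x s / n‖ ^ (n - 1)) *
              ‖deriv ((fm n c)^[s + 1]) y‖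
            ≤ (n : ℝ) * (‖zz n c (s + 1)‖ ^ (n - 1) * Real.exp ‖V n (EE n c) x s‖) *
              (n * ‖y‖ ^ (n - 1) * ‖DD n c s‖ *
                Real.exp (∑ i ∈ range s, ‖V n (EE n c) x i‖)) := by gcongr
          _ = _ := by ring
    have h3 := hind t le_rfl
    have h4 : Real.exp (∑ i ∈ range t, ‖V n (EE n c) x i‖) ≤ 1.1 := by
      have h5 : ∑ i ∈ range t, ‖V n (EE n c) x i‖ ≤ 1.02 * (1 / 200) := by
        calc ∑ i ∈ range t, ‖V n (EE n c) x i‖
            ≤ ∑ i ∈ range t, 1.02 * ‖x * Lp n (EE n c) i‖ :=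
              sum_le_sum fun i hi => (V_bounds ho h1 i (mem_range.1 hi).le).2
          _ = 1.02 * ∑ i ∈ range t, ‖x * Lp n (EE n c) i‖ := by rw [mul_sum]
          _ ≤ 1.02 * (1 / 200) := by gcongr
      have h6 : Real.exp (∑ i ∈ range t, ‖V n (EE n c) x i‖) ≤ Real.exp (1 / 100) :=
        Real.exp_le_exp.2 (by linarith)
      have h7 := Real.abs_exp_sub_one_le (x := 1 / 100) (by rw [abs_le]; norm_num)
      have h8 := le_abs_self (Real.exp (1 / 100) - 1)
      rw [abs_of_pos (show (0 : ℝ) < 1 / 100 by norm_num)] at h7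
      linarith
    have h5 : n * ‖y‖ ^ (n - 1) * ‖DD n c t‖ ≤ 3 * ‖DD n c (t + 1)‖ := by
      rw [DD_succ hn0, norm_mul, norm_mul, norm_pow, Complex.norm_natCast, ← hp]
      rw [mem_closedBall, dist_zero_right] at hy
      have h6 : ‖y‖ ^ (n - 1) ≤ 3 * p ^ (n - 1) := by
        calc ‖y‖ ^ (n - 1) ≤ ((1 + 1 / n) * p) ^ (n - 1) := pow_le_pow_left₀ (norm_nonneg _) hy _
          _ = (1 + 1 / n) ^ (n - 1) * p ^ (n - 1) := mul_pow _ _ _
          _ ≤ 3 * p ^ (n - 1) := by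
            have h2 := one_add_div_pow_le (n := n) (x := 1) zero_le_one (n - 1) (by omega)
            have h3 : 0 ≤ p ^ (n - 1) := by positivity
            exact mul_le_mul_of_nonneg_right (h2.trans he1.le) h3
      calc (n : ℝ) * ‖y‖ ^ (n - 1) * ‖DD n c t‖ ≤ n * (3 * p ^ (n - 1)) * ‖DD n c t‖ := by
            gcongr
        _ = _ := by ring
    have h6 : ‖DD n c (t + 1)‖ < 1 / KK := by
      have := EE_Lp hn0 hz t t
      rw [div_self (hz t), one_pow, mul_one] at this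
      rw [← this]; exact hsmall
    have h7 : 0 ≤ n * ‖y‖ ^ (n - 1) * ‖DD n c t‖ := by positivity
    calc ‖deriv ((fm n c)^[t + 1]) y‖
        ≤ n * ‖y‖ ^ (n - 1) * ‖DD n c t‖ * Real.exp (∑ i ∈ range t, ‖V n (EE n c) x i‖) := h3
      _ ≤ (3 * ‖DD n c (t + 1)‖) * 1.1 :=
          mul_le_mul h5 h4 (Real.exp_pos _).le (by positivity)
      _ ≤ 1 / 2 := by linarith
  obtain ⟨z, hz1, hz2⟩ := attracting_of_contraction ((fm_differentiable n c).iterate (t + 1))
    (c := 0) (ρ := (1 + 1 / n) * p) (q := 1 / 2) (by positivity) (by norm_num) hmaps hder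
  exact ⟨z, t + 1, Nat.succ_pos t, hz1, hz2⟩

end Pool.Agent.helper54.CR
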