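import Mathlib

/-!
# A weak Bloch theorem
-/

set_option autoImplicit false

open Metric Set Filter Topology

namespace Pool.Agent.helper54.CR

/-- Weak Bloch theorem: if the image of a disc of radius `ρ` contains no disc of radius `R`, then
the derivative at the centre is at most `96 R / ρ`. -/
theorem bloch {φ : ℂ → ℂ} {w : ℂ} {ρ R : ℝ} (hρ : 0 < ρ)
    (hd : DifferentiableOn ℂ φ (ball w ρ))
    (hR : ∀ a : ℂ, ∃ b ∈ ball a R, ∀ z ∈ ball w ρ, φ z ≠ b) :
    ‖deriv φ w‖ ≤ 96 * R / ρ := by
  have hda : DifferentiableOn ℂ (deriv φ) (ball w ρ) := hd.deriv isOpen_ball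
  set r := ρ / 2 with hr
  have hr0 : 0 < r := by positivity
  have hrρ : r < ρ := by rw [hr]; linarith
  have hsub : closedBall w r ⊆ ball w ρ := closedBall_subset_ball hrρ
  have hcont : ContinuousOn (fun z => ‖deriv φ z‖ * (r - ‖z - w‖)) (closedBall w r) := by
    apply ContinuousOn.mul
    · exact (hda.continuousOn.mono hsub).norm
    · fun_prop
  obtain ⟨a, ha, hmax⟩ := (isCompact_closedBall w r).exists_isMaxOn
    ⟨w, mem_closedBall_self hr0.le⟩ hcont
  have hmw := hmax (mem_closedBall_self hr0.le)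
  simp only [mem_ofPred_eq, sub_self, norm_zero, sub_zero] at hmw
  set M := ‖deriv φ a‖ * (r - ‖a - w‖) with hM
  have haw : ‖a - w‖ ≤ r := by rwa [mem_closedBall, dist_eq_norm] at ha
  by_contra hcon
  rw [not_le, div_lt_iff₀ hρ] at hcon
  have hRpos : 0 < R := by
    obtain ⟨b, hb, -⟩ := hR 0
    exact pos_of_mem_ball hb
  have hMpos : 48 * R < M := by
    have : ‖deriv φ w‖ * ρ = 2 * (‖deriv φ w‖ * r) := by rw [hr]; ring
    linarith
  have hM0 : 0 < M := by linarith
  set D := ‖deriv φ a‖ with hD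
  have hD0 : 0 < D := by
    rcases (norm_nonneg (deriv φ a)).eq_or_lt with h | h
    · rw [hM, hD, ← h, zero_mul] at hM0; exact absurd hM0 (lt_irrefl _)
    · exact h
  have hra : 0 < r - ‖a - w‖ := by
    by_contra h
    push Not at h
    have : M ≤ 0 := mul_nonpos_of_nonneg_of_nonpos hD0.le h
    linarith
  set t := (r - ‖a - w‖) / 2 with ht
  have ht0 : 0 < t := by positivity
  have hMt : M = D * (2 * t) := by rw [hM, ht]; ring
  have hball : ∀ z ∈ ball a t, z ∈ closedBall w r ∧ t ≤ r - ‖z - w‖ := by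
    intro z hz
    rw [mem_ball, dist_eq_norm] at hz
    have h1 : ‖z - w‖ ≤ ‖z - a‖ + ‖a - w‖ := by
      have := norm_add_le (z - a) (a - w)
      rwa [sub_add_sub_cancel] at this
    have h2 : r - ‖a - w‖ = 2 * t := by rw [ht]; ring
    refine ⟨?_, by linarith⟩
    rw [mem_closedBall, dist_eq_norm]
    linarith
  have hbd : ∀ z ∈ ball a t, ‖deriv φ z‖ ≤ 2 * D := by
    intro z hz
    obtain ⟨h1, h2⟩ := hball z hz
    have h3 := hmax h1
    simp only [mem_ofPred_eq] at h3
    have h4 : ‖deriv φ z‖ * t ≤ D * (2 * t) := by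
      rw [← hMt]
      refine le_trans ?_ h3
      exact mul_le_mul_of_nonneg_left h2 (norm_nonneg _)
    have h5 : ‖deriv φ z‖ * t ≤ (2 * D) * t := by linarith
    exact le_of_mul_le_mul_right h5 ht0
  have hschw : ∀ z ∈ ball a t, ‖deriv φ z - deriv φ a‖ ≤ 3 * D / t * ‖z - a‖ := by
    intro z hz
    have h1 := Complex.dist_le_div_mul_dist_of_mapsTo_ball (f := deriv φ) (c := a) (R₁ := t)
      (R₂ := 3 * D) (z := z) (hda.mono fun y hy => hsub (hball y hy).1) (by
        intro y hy
        rw [mem_closedBall, dist_eq_norm]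
        have := norm_sub_le (deriv φ y) (deriv φ a)
        have := hbd y hy
        linarith) hz
    rwa [dist_eq_norm, dist_eq_norm] at h1
  set s := t / 6 with hs
  have hs0 : 0 < s := by positivity
  have hst : s < t := by rw [hs]; linarith
  have hsb : closedBall a s ⊆ ball a t := closedBall_subset_ball hst
  have hdiff : ∀ z ∈ closedBall a s, DifferentiableAt ℂ φ z := fun z hz =>
    hd.differentiableAt (isOpen_ball.mem_nhds (hsub (hball z (hsb hz)).1))
  have hlin : ∀ z ∈ closedBall a s, ‖φ z - φ a - deriv φ a * (z - a)‖ ≤ D / 2 * ‖z - a‖ := by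
    intro z hz
    have h1 := (convex_closedBall a s).norm_image_sub_le_of_norm_hasDerivWithin_le
      (f := fun y => φ y - deriv φ a * y) (f' := fun y => deriv φ y - deriv φ a) (C := D / 2)
      (x := a) (y := z)
      (fun y hy => by
        have h2 := (hdiff y hy).hasDerivAt.sub ((hasDerivAt_id y).const_mul (deriv φ a))
        rw [mul_one] at h2
        exact h2.hasDerivWithinAt)
      (fun y hy => by
        refine (hschw y (hsb hy)).trans ?_
        rw [mem_closedBall, dist_eq_norm] at hy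
        calc 3 * D / t * ‖y - a‖ ≤ 3 * D / t * s := by gcongr
          _ = D / 2 := by rw [hs]; field_simp; norm_num) (mem_closedBall_self hs0.le) hz
    have h2 : φ z - φ a - deriv φ a * (z - a) =
        φ z - deriv φ a * z - (φ a - deriv φ a * a) := by ring
    rw [h2]
    exact h1
  have hlow : ∀ z ∈ closedBall a s, D / 2 * ‖z - a‖ ≤ ‖φ z - φ a‖ := by
    intro z hz
    have h1 := hlin z hz
    have h2 : ‖deriv φ a * (z - a)‖ ≤ ‖φ z - φ a‖ + ‖φ z - φ a - deriv φ a * (z - a)‖ := by
      have := norm_sub_le (φ z - φ a) (φ z - φ a - deriv φ a * (z - a))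
      rwa [sub_sub_cancel] at this
    rw [norm_mul, ← hD] at h2
    linarith
  have hsphere : ∀ z ∈ sphere a s, D / 2 * s ≤ ‖φ z - φ a‖ := by
    intro z hz
    have h1 := hlow z (sphere_subset_closedBall hz)
    rwa [mem_sphere_iff_norm.1 hz] at h1
  have hfreq : ∃ᶠ z in 𝓝 a, φ z ≠ φ a := by
    have h1 : HasDerivAt φ (deriv φ a) a := (hdiff a (mem_closedBall_self hs0.le)).hasDerivAt
    have h2 := h1.eventually_ne (c := φ a) (by
      rw [← norm_pos_iff]; exact hD0)
    exact h2.frequently.filter_mono nhdsWithin_le_nhds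
  have hcl : DiffContOnCl ℂ φ (ball a s) := by
    apply DifferentiableOn.diffContOnCl
    rw [closure_ball a hs0.ne']
    exact fun z hz => (hdiff z hz).differentiableWithinAt
  have himg := hcl.ball_subset_image_closedBall hs0 hsphere hfreq
  obtain ⟨b, hb, hb2⟩ := hR (φ a)
  have h1 : b ∈ ball (φ a) (D / 2 * s / 2) := by
    rw [mem_ball] at hb ⊢
    refine hb.trans_le ?_
    have h3 : D / 2 * s / 2 = M / 48 := by rw [hMt, hs]; ring
    rw [h3]; linarith
  obtain ⟨z, hz, hzb⟩ := himg h1
  exact hb2 z (hsub (hball z (hsb hz)).1) hzb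

end Pool.Agent.helper54.CR
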