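import Pool.Agent.helper54.CR.Est

/-!
# One block
-/

set_option autoImplicit false

open Finset

namespace Pool.Agent.helper54.CR

variable {n : ℕ} {E : ℕ → ℂ}

lemma div_small {v : ℂ} (hn : 0 < n) (hv : ‖v‖ ≤ 1 / 100) :
    ‖v / (1 + v / n)‖ ≤ 1.02 * ‖v‖ := by
  have hn' : (1 : ℝ) ≤ n := by exact_mod_cast hn
  have h1 : 0.99 ≤ ‖1 + v / n‖ := by
    have h2 := norm_sub_norm_le (1 : ℂ) (-(v / n))
    rw [sub_neg_eq_add, norm_one, norm_neg, norm_div, Complex.norm_natCast] at h2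
    have h3 : ‖v‖ / n ≤ ‖v‖ := div_le_self (norm_nonneg _) hn'
    linarith
  rw [norm_div, div_le_iff₀ (by linarith)]
  have := norm_nonneg v
  nlinarith

lemma range_split (f : ℕ → ℝ) (t r : ℕ) :
    ∑ s ∈ range (t + 1 + r), f s = ∑ s ∈ range t, f s + f t + ∑ s ∈ range r, f (t + 1 + s) := by
  rw [sum_range_add, sum_range_succ]

/-- The block estimates. -/
theorem block (h : Orb n E) {t r : ℕ} (hn : 1000 ≤ n) (hrt : r ≤ t)
    (h1 : 1 ≤ ‖et n E t‖)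
    (het : ∑ s ∈ range t, ‖et n E s‖ ≤ 1 / 10 ^ 5 * ‖et n E t‖)
    (hL : ∑ s ∈ range t, ‖Lp n E s‖ ≤ 1 / 10 ^ 5 * ‖Lp n E t‖)
    (hX : ∑ s ∈ range r, ‖E t * Lp n E s‖ ≤ 1 / 200) :
    ∃ v : ℂ, 0.98 * ‖E t * Lp n E r‖ ≤ ‖v‖ ∧ ‖v‖ ≤ 1.02 * ‖E t * Lp n E r‖ ∧
      1 + v / n ≠ 0 ∧ E (t + 1 + r) = E r * (1 + v / n) ^ n ∧
      0.9 * ‖v / (1 + v / n)‖ * ‖Lp n E t‖ ≤ ‖Lp n E (t + 1 + r)‖ ∧
      ‖Lp n E (t + 1 + r)‖ ≤ 1.1 * ‖v / (1 + v / n)‖ * ‖Lp n E t‖ ∧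
      0.9 * ‖v / (1 + v / n)‖ * ‖et n E t‖ - ‖et n E r‖ ≤ ‖et n E (t + 1 + r)‖ ∧
      ‖et n E (t + 1 + r)‖ ≤ 1.1 * ‖v / (1 + v / n)‖ * ‖et n E t‖ + ‖et n E r‖ ∧
      (∀ m ≤ t + 1 + r, t < m → ∑ s ∈ range m, ‖Lp n E s‖ ≤ 1.1 * ‖Lp n E t‖) ∧
      ∑ s ∈ range (t + 1 + r), ‖et n E s‖ ≤ 1.1 * ‖et n E t‖ := by
  have hn0 : 0 < n := by omega
  have hnR : (1000 : ℝ) ≤ n := by exact_mod_cast hn
  have hVb := V_bounds h hX
  have hne : ∀ s < r, (1 + V n E (E t) s / n) ^ n - 1 ≠ 0 := fun s hs =>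
    pow_ne_one hn0 (by have := V_small h hX s hs; linarith) (V_ne h (h.ne0 t) hX s hs.le)
  have hww := ww_est h hn hrt h1 het hX
  have hwb : ∀ s ≤ r, 0.95 * ‖et n E t‖ ≤ ‖ww n E t s / n‖ ∧
      ‖ww n E t s / n‖ ≤ 1.05 * ‖et n E t‖ := by
    intro s hs
    have e1 := hww s hs
    have e2 := norm_sub_norm_le (ww n E t s) (n * et n E t)
    have e3 := norm_sub_norm_le (n * et n E t) (ww n E t s)
    rw [norm_sub_rev (n * et n E t)] at e3
    rw [norm_mul, Complex.norm_natCast] at e2 e3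
    rw [norm_div, Complex.norm_natCast]
    constructor
    · rw [le_div_iff₀ (by linarith)]; linarith
    · rw [div_le_iff₀ (by linarith)]; linarith
  have hGb := GG_bounds h (h.ne0 t) hX
  have hLs : ∀ s ≤ r, 0.9 * ‖V n E (E t) s / (1 + V n E (E t) s / n)‖ * ‖Lp n E t‖ ≤
      ‖Lp n E (t + 1 + s)‖ ∧ ‖Lp n E (t + 1 + s)‖ ≤
      1.1 * ‖V n E (E t) s / (1 + V n E (E t) s / n)‖ * ‖Lp n E t‖ := by
    intro s hs
    rw [Lp_shadow h t s fun i hi => hne i (by omega), norm_mul, norm_mul]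
    have e1 := hGb s hs
    set q := ‖V n E (E t) s / (1 + V n E (E t) s / n)‖ with hq
    have e2 : 0 ≤ ‖Lp n E t‖ * q := by positivity
    constructor <;> nlinarith
  have hes : ∀ s ≤ r, 0.9 * ‖V n E (E t) s / (1 + V n E (E t) s / n)‖ * ‖et n E t‖ -
      ‖et n E s‖ ≤ ‖et n E (t + 1 + s)‖ ∧ ‖et n E (t + 1 + s)‖ ≤
      1.1 * ‖V n E (E t) s / (1 + V n E (E t) s / n)‖ * ‖et n E t‖ + ‖et n E s‖ := by
    intro s hs
    rw [et_shadow h t s fun i hi => hne i (by omega)]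
    have e1 := hwb s hs
    set q := V n E (E t) s / (1 + V n E (E t) s / n) with hq
    have e2 : 0 ≤ ‖q‖ * ‖et n E t‖ := by positivity
    have e3 := norm_add_le (et n E s) (q * (ww n E t s / n))
    have e4 := norm_sub_norm_le (q * (ww n E t s / n)) (-et n E s)
    rw [sub_neg_eq_add, norm_neg, add_comm (q * (ww n E t s / n))] at e4
    rw [norm_mul] at e3 e4
    have e5 : ‖q‖ * ‖ww n E t s / n‖ ≤ ‖q‖ * (1.05 * ‖et n E t‖) :=
      mul_le_mul_of_nonneg_left e1.2 (norm_nonneg _)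
    have e6 : ‖q‖ * (0.95 * ‖et n E t‖) ≤ ‖q‖ * ‖ww n E t s / n‖ :=
      mul_le_mul_of_nonneg_left e1.1 (norm_nonneg _)
    constructor <;> nlinarith
  have hq : ∀ s < r, ‖V n E (E t) s / (1 + V n E (E t) s / n)‖ ≤ 1.05 * ‖E t * Lp n E s‖ := by
    intro s hs
    have e1 := div_small hn0 (V_small h hX s hs)
    have e2 := (hVb s hs.le).2
    have := norm_nonneg (E t * Lp n E s)
    linarith
  refine ⟨V n E (E t) r, (hVb r le_rfl).1, (hVb r le_rfl).2, one_add_V_ne h t r,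
    E_shadow h t r, (hLs r le_rfl).1, (hLs r le_rfl).2, (hes r le_rfl).1, (hes r le_rfl).2,
    ?_, ?_⟩
  · have key : ∑ s ∈ range (t + 1 + r), ‖Lp n E s‖ ≤ 1.1 * ‖Lp n E t‖ := by
      rw [range_split]
      have e1 : ∑ s ∈ range r, ‖Lp n E (t + 1 + s)‖ ≤
          ∑ s ∈ range r, 1.2 * ‖E t * Lp n E s‖ * ‖Lp n E t‖ := by
        apply sum_le_sum
        intro s hs
        have hs := mem_range.1 hs
        refine (hLs s hs.le).2.trans ?_
        have e2 := hq s hs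
        have e3 : 0 ≤ ‖Lp n E t‖ := norm_nonneg _
        have e4 := norm_nonneg (E t * Lp n E s)
        gcongr ?_ * _
        linarith
      have e5 : ∑ s ∈ range r, 1.2 * ‖E t * Lp n E s‖ * ‖Lp n E t‖ =
          1.2 * (∑ s ∈ range r, ‖E t * Lp n E s‖) * ‖Lp n E t‖ := by
        rw [← sum_mul, ← mul_sum]
      rw [e5] at e1
      have e6 : 1.2 * (∑ s ∈ range r, ‖E t * Lp n E s‖) * ‖Lp n E t‖ ≤
          1.2 * (1 / 200) * ‖Lp n E t‖ := by gcongr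
      have := norm_nonneg (Lp n E t)
      linarith
    intro m hm _
    exact (sum_le_sum_of_subset_of_nonneg (range_mono hm) fun _ _ _ => norm_nonneg _).trans key
  · rw [range_split]
    have e1 : ∑ s ∈ range r, ‖et n E (t + 1 + s)‖ ≤
        ∑ s ∈ range r, (1.2 * ‖E t * Lp n E s‖ * ‖et n E t‖ + ‖et n E s‖) := by
      apply sum_le_sum
      intro s hs
      have hs := mem_range.1 hs
      refine (hes s hs.le).2.trans ?_
      have e2 := hq s hs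
      have e4 := norm_nonneg (E t * Lp n E s)
      gcongr ?_ * _ + _
      linarith
    have e5 : ∑ s ∈ range r, (1.2 * ‖E t * Lp n E s‖ * ‖et n E t‖ + ‖et n E s‖) =
        1.2 * (∑ s ∈ range r, ‖E t * Lp n E s‖) * ‖et n E t‖ + ∑ s ∈ range r, ‖et n E s‖ := by
      rw [sum_add_distrib, ← sum_mul, ← mul_sum]
    rw [e5] at e1
    have e6 : 1.2 * (∑ s ∈ range r, ‖E t * Lp n E s‖) * ‖et n E t‖ ≤
        1.2 * (1 / 200) * ‖et n E t‖ := by gcongr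
    have e7 : ∑ s ∈ range r, ‖et n E s‖ ≤ ∑ s ∈ range t, ‖et n E s‖ :=
      sum_le_sum_of_subset_of_nonneg (range_mono hrt) fun _ _ _ => norm_nonneg _
    linarith

end Pool.Agent.helper54.CR
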