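import Pool.Agent.helper54.CR.Seq

/-!
# Estimates for the shadowing
-/

set_option autoImplicit false

open Finset

namespace Pool.Agent.helper54.CR

lemma norm_pow_sub_lin_le (w : ℂ) (n : ℕ) :
    ‖(1 + w) ^ n - 1 - n * w‖ ≤ (1 + ‖w‖) ^ n - 1 - n * ‖w‖ := by
  induction n with
  | zero => simp
  | succ n ih =>
    have e1 : (1 + w) ^ (n + 1) - 1 - ((n + 1 : ℕ) : ℂ) * w =
        (1 + w) * ((1 + w) ^ n - 1 - n * w) + n * w ^ 2 := by push_cast; ring
    have e2 : (1 + ‖w‖) ^ (n + 1) - 1 - ((n + 1 : ℕ) : ℝ) * ‖w‖ =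
        (1 + ‖w‖) * ((1 + ‖w‖) ^ n - 1 - n * ‖w‖) + n * ‖w‖ ^ 2 := by push_cast; ring
    rw [e1, e2]
    refine (norm_add_le _ _).trans (add_le_add ?_ ?_)
    · rw [norm_mul]
      have h1 : ‖1 + w‖ ≤ 1 + ‖w‖ := by
        have := norm_add_le (1 : ℂ) w
        rwa [norm_one] at this
      exact mul_le_mul h1 ih (norm_nonneg _) (by positivity)
    · rw [norm_mul, norm_pow, Complex.norm_natCast]

lemma norm_pow_sub_one_le' (w : ℂ) (n : ℕ) : ‖(1 + w) ^ n - 1‖ ≤ (1 + ‖w‖) ^ n - 1 := by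
  induction n with
  | zero => simp
  | succ n ih =>
    have e1 : (1 + w) ^ (n + 1) - 1 = (1 + w) * ((1 + w) ^ n - 1) + w := by ring
    have e2 : (1 + ‖w‖) ^ (n + 1) - 1 = (1 + ‖w‖) * ((1 + ‖w‖) ^ n - 1) + ‖w‖ := by ring
    rw [e1, e2]
    refine (norm_add_le _ _).trans (add_le_add ?_ le_rfl)
    rw [norm_mul]
    have h1 : ‖1 + w‖ ≤ 1 + ‖w‖ := by
      have := norm_add_le (1 : ℂ) w
      rwa [norm_one] at this
    exact mul_le_mul h1 ih (norm_nonneg _) (by positivity)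

lemma one_add_div_pow_le {n : ℕ} {x : ℝ} (hx : 0 ≤ x) (m : ℕ) (hm : m ≤ n) :
    (1 + x / n) ^ m ≤ Real.exp x := by
  have h1 : (1 + x / n) ^ m ≤ (1 + x / n) ^ n :=
    pow_le_pow_right₀ (by have : 0 ≤ x / n := by positivity
                          linarith) hm
  refine h1.trans ?_
  have h2 : 1 + x / n ≤ Real.exp (x / n) := by
    have := Real.add_one_le_exp (x / n)
    linarith
  refine (pow_le_pow_left₀ (by positivity) h2 n).trans ?_
  rw [← Real.exp_nat_mul]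
  rcases Nat.eq_zero_or_pos n with rfl | hn
  · simpa using hx
  · rw [mul_div_cancel₀]
    exact_mod_cast hn.ne'

lemma pow_est {n : ℕ} (hn : 0 < n) {v : ℂ} (hv : ‖v‖ ≤ 1) :
    ‖(1 + v / n) ^ n - 1 - v‖ ≤ ‖v‖ ^ 2 := by
  have hn' : (n : ℂ) ≠ 0 := by exact_mod_cast hn.ne'
  have hn'' : (n : ℝ) ≠ 0 := by exact_mod_cast hn.ne'
  have h1 := norm_pow_sub_lin_le (v / n) n
  rw [mul_div_cancel₀ _ hn', norm_div, Complex.norm_natCast, mul_div_cancel₀ _ hn''] at h1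
  have h2 := one_add_div_pow_le (n := n) (norm_nonneg v) n le_rfl
  have h3 := Real.abs_exp_sub_one_sub_id_le (x := ‖v‖) (by rwa [abs_of_nonneg (norm_nonneg v)])
  have h4 := le_abs_self (Real.exp ‖v‖ - 1 - ‖v‖)
  linarith

lemma pow_est2 {n : ℕ} (hn : 0 < n) {v : ℂ} (hv : ‖v‖ ≤ 1 / 10) :
    ‖(1 + v / n) ^ (n - 1) - 1‖ ≤ 11 / 10 * ‖v‖ := by
  have h1 := norm_pow_sub_one_le' (v / n) (n - 1)
  rw [norm_div, Complex.norm_natCast] at h1
  have h2 := one_add_div_pow_le (n := n) (norm_nonneg v) (n - 1) (by omega)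
  have h3 := Real.abs_exp_sub_one_sub_id_le (x := ‖v‖) (by
    rw [abs_of_nonneg (norm_nonneg v)]; linarith)
  have h4 := le_abs_self (Real.exp ‖v‖ - 1 - ‖v‖)
  have h5 := norm_nonneg v
  nlinarith

lemma pow_ne_one {n : ℕ} (hn : 0 < n) {v : ℂ} (hv : ‖v‖ ≤ 1 / 10) (hv0 : v ≠ 0) :
    (1 + v / n) ^ n - 1 ≠ 0 := by
  intro h
  have h1 := pow_est hn (v := v) (by linarith)
  rw [h, zero_sub, norm_neg] at h1
  have h2 : 0 < ‖v‖ := norm_pos_iff.2 hv0
  nlinarith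

lemma gg_est {n : ℕ} (hn : 0 < n) {v : ℂ} (hv : ‖v‖ ≤ 1 / 10) (hv0 : v ≠ 0) :
    ‖gg n v - 1‖ ≤ 3 * ‖v‖ := by
  have h1 := pow_est hn (v := v) (by linarith)
  have h2 := pow_est2 hn hv
  have h3 := pow_ne_one hn hv hv0
  have h4 : 0 < ‖v‖ := norm_pos_iff.2 hv0
  set a := (1 + v / n) ^ n - 1 with ha
  set b := (1 + v / n) ^ (n - 1) with hb
  have h5 : gg n v - 1 = (v * (b - 1) - (a - v)) / a := by
    rw [gg, ← ha, ← hb]
    field_simp
    ring
  have h6 : 9 / 10 * ‖v‖ ≤ ‖a‖ := by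
    have := norm_sub_norm_le v (v - a)
    rw [sub_sub_cancel, norm_sub_rev v a] at this
    nlinarith
  rw [h5, norm_div, div_le_iff₀ (by linarith [mul_pos (show (0:ℝ) < 9 / 10 by norm_num) h4])]
  have h7 : ‖v * (b - 1) - (a - v)‖ ≤ ‖v‖ * (11 / 10 * ‖v‖) + ‖v‖ ^ 2 := by
    refine (norm_sub_le _ _).trans (add_le_add ?_ h1)
    rw [norm_mul]
    exact mul_le_mul_of_nonneg_left h2 h4.le
  nlinarith

lemma up_est {n : ℕ} (v : ℂ) : ‖1 + v / n‖ ^ n ≤ Real.exp ‖v‖ := by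
  have h1 : ‖1 + v / n‖ ≤ 1 + ‖v‖ / n := by
    have := norm_add_le (1 : ℂ) (v / n)
    rwa [norm_one, norm_div, Complex.norm_natCast] at this
  exact (pow_le_pow_left₀ (norm_nonneg _) h1 n).trans
    (one_add_div_pow_le (norm_nonneg v) n le_rfl)

lemma exp_neg_two_le {y : ℝ} (h0 : 0 ≤ y) (h : y ≤ 1 / 2) : Real.exp (-(2 * y)) ≤ 1 - y := by
  have h1 : 1 + 2 * y ≤ Real.exp (2 * y) := by
    have := Real.add_one_le_exp (2 * y)
    linarith
  rw [Real.exp_neg]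
  have h2 : (Real.exp (2 * y))⁻¹ ≤ (1 + 2 * y)⁻¹ := inv_anti₀ (by linarith) h1
  refine h2.trans ?_
  rw [inv_le_iff_one_le_mul₀ (by linarith)]
  nlinarith

lemma low_est {n : ℕ} (hn : 0 < n) {v : ℂ} (hv : ‖v‖ ≤ n / 2) :
    Real.exp (-(2 * ‖v‖)) ≤ ‖1 + v / n‖ ^ n := by
  have hn' : (0 : ℝ) < n := by exact_mod_cast hn
  have h1 : 1 - ‖v‖ / n ≤ ‖1 + v / n‖ := by
    have := norm_sub_norm_le (1 : ℂ) (-(v / n))
    rwa [sub_neg_eq_add, norm_one, norm_neg, norm_div, Complex.norm_natCast] at this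
  have h2 : ‖v‖ / n ≤ 1 / 2 := by
    rw [div_le_iff₀ hn']; linarith
  have h3 := exp_neg_two_le (y := ‖v‖ / n) (by positivity) h2
  have h4 : Real.exp (-(2 * ‖v‖)) = Real.exp (-(2 * (‖v‖ / n))) ^ n := by
    rw [← Real.exp_nat_mul]
    congr 1
    field_simp
  rw [h4]
  exact pow_le_pow_left₀ (Real.exp_pos _).le (h3.trans h1) n

section shadow

variable {n : ℕ} {E : ℕ → ℂ}

/-- the deviation is close to its linearisation -/
lemma V_est (h : Orb n E) {x : ℂ} {r : ℕ}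
    (hX : ∑ s ∈ range r, ‖x * Lp n E s‖ ≤ 1 / 200) :
    ∀ s ≤ r, ‖V n E x s - x * Lp n E s‖ ≤
      3 * (∑ i ∈ range s, ‖x * Lp n E i‖) * ‖x * Lp n E s‖ := by
  have hn : 0 < n := Nat.pos_of_ne_zero (by rintro rfl; exact h.n_ne (by simp))
  intro s
  induction s with
  | zero => intro _; simp [V, Lp]
  | succ s ih =>
    intro hs
    have ih := ih (by omega)
    have hT : ∑ i ∈ range (s + 1), ‖x * Lp n E i‖ ≤ 1 / 200 :=
      (sum_le_sum_of_subset_of_nonneg (range_mono hs) fun _ _ _ => norm_nonneg _).trans hX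
    rw [sum_range_succ] at hT
    set T := ∑ i ∈ range s, ‖x * Lp n E i‖ with hTdef
    have hT0 : 0 ≤ T := sum_nonneg fun _ _ => norm_nonneg _
    have hx0 := norm_nonneg (x * Lp n E s)
    have hV : ‖V n E x s‖ ≤ 1.02 * ‖x * Lp n E s‖ := by
      have := norm_sub_norm_le (V n E x s) (x * Lp n E s)
      nlinarith
    have h1 := pow_est hn (v := V n E x s) (by nlinarith)
    have h2 : V n E x (s + 1) - x * Lp n E (s + 1) =
        Lam n E s * ((V n E x s - x * Lp n E s) +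
          ((1 + V n E x s / n) ^ n - 1 - V n E x s)) := by
      rw [V, Lp]; ring
    have h3 : ‖x * Lp n E (s + 1)‖ = ‖Lam n E s‖ * ‖x * Lp n E s‖ := by
      rw [Lp, ← norm_mul]; congr 1; ring
    rw [h2, norm_mul, h3, sum_range_succ, ← hTdef]
    have h4 : ‖(V n E x s - x * Lp n E s) + ((1 + V n E x s / n) ^ n - 1 - V n E x s)‖ ≤
        3 * (T + ‖x * Lp n E s‖) * ‖x * Lp n E s‖ := by
      refine (norm_add_le _ _).trans ?_
      have h5 : ‖V n E x s‖ ^ 2 ≤ (1.02 * ‖x * Lp n E s‖) ^ 2 :=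
        pow_le_pow_left₀ (norm_nonneg _) hV 2
      nlinarith
    calc ‖Lam n E s‖ * _ ≤ ‖Lam n E s‖ * (3 * (T + ‖x * Lp n E s‖) * ‖x * Lp n E s‖) :=
          mul_le_mul_of_nonneg_left h4 (norm_nonneg _)
      _ = _ := by ring

lemma V_bounds (h : Orb n E) {x : ℂ} {r : ℕ}
    (hX : ∑ s ∈ range r, ‖x * Lp n E s‖ ≤ 1 / 200) (s : ℕ) (hs : s ≤ r) :
    0.98 * ‖x * Lp n E s‖ ≤ ‖V n E x s‖ ∧ ‖V n E x s‖ ≤ 1.02 * ‖x * Lp n E s‖ := by
  have h1 := V_est h hX s hs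
  have hT : ∑ i ∈ range s, ‖x * Lp n E i‖ ≤ 1 / 200 :=
    (sum_le_sum_of_subset_of_nonneg (range_mono hs) fun _ _ _ => norm_nonneg _).trans hX
  have hT0 : 0 ≤ ∑ i ∈ range s, ‖x * Lp n E i‖ := sum_nonneg fun _ _ => norm_nonneg _
  have hx0 := norm_nonneg (x * Lp n E s)
  have h2 := norm_sub_norm_le (V n E x s) (x * Lp n E s)
  have h3 := norm_sub_norm_le (x * Lp n E s) (V n E x s)
  rw [norm_sub_rev (x * Lp n E s)] at h3
  constructor <;> nlinarith

lemma X_small {x : ℂ} {r : ℕ} (hX : ∑ s ∈ range r, ‖x * Lp n E s‖ ≤ 1 / 200) (s : ℕ)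
    (hs : s < r) : ‖x * Lp n E s‖ ≤ 1 / 200 :=
  (single_le_sum (f := fun s => ‖x * Lp n E s‖) (fun _ _ => norm_nonneg _)
    (mem_range.2 hs)).trans hX

lemma Lam_ne_zero (h : Orb n E) (j : ℕ) : Lam n E j ≠ 0 := div_ne_zero (h.ne0 j) (h.ne j)

lemma Lp_ne_zero (h : Orb n E) (j : ℕ) : Lp n E j ≠ 0 := by
  induction j with
  | zero => exact one_ne_zero
  | succ j ih => exact mul_ne_zero (Lam_ne_zero h j) ih

lemma V_ne (h : Orb n E) {x : ℂ} (hx : x ≠ 0) {r : ℕ}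
    (hX : ∑ s ∈ range r, ‖x * Lp n E s‖ ≤ 1 / 200) (s : ℕ) (hs : s ≤ r) : V n E x s ≠ 0 := by
  have h1 := (V_bounds h hX s hs).1
  have h2 : 0 < ‖x * Lp n E s‖ := norm_pos_iff.2 (mul_ne_zero hx (Lp_ne_zero h s))
  rw [← norm_pos_iff]
  linarith

lemma V_small (h : Orb n E) {x : ℂ} {r : ℕ}
    (hX : ∑ s ∈ range r, ‖x * Lp n E s‖ ≤ 1 / 200) (s : ℕ) (hs : s < r) :
    ‖V n E x s‖ ≤ 1 / 100 := by
  have h1 := (V_bounds h hX s hs.le).2
  have h2 := X_small hX s hs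
  linarith

lemma GG_est (h : Orb n E) {x : ℂ} (hx : x ≠ 0) {r : ℕ}
    (hX : ∑ s ∈ range r, ‖x * Lp n E s‖ ≤ 1 / 200) :
    ∀ s ≤ r, ‖GG n E x s - 1‖ ≤ 5 * ∑ i ∈ range s, ‖x * Lp n E i‖ := by
  have hn : 0 < n := Nat.pos_of_ne_zero (by rintro rfl; exact h.n_ne (by simp))
  intro s
  induction s with
  | zero => intro _; simp [GG]
  | succ s ih =>
    intro hs
    have ih := ih (by omega)
    have hT : ∑ i ∈ range s, ‖x * Lp n E i‖ ≤ 1 / 200 :=
      (sum_le_sum_of_subset_of_nonneg (range_mono (by omega)) fun _ _ _ => norm_nonneg _).trans hX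
    have h1 := gg_est hn (v := V n E x s) (by
      have := V_small h hX s (by omega)
      linarith) (V_ne h hx hX s (by omega))
    have h2 := (V_bounds h hX s (by omega)).2
    have h3 : GG n E x (s + 1) - 1 = (gg n (V n E x s) - 1) * GG n E x s + (GG n E x s - 1) := by
      rw [GG]; ring
    have h4 : ‖GG n E x s‖ ≤ 1.1 := by
      have h5 := norm_sub_norm_le (GG n E x s) 1
      rw [norm_one] at h5
      linarith
    rw [h3, sum_range_succ]
    refine (norm_add_le _ _).trans ?_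
    rw [norm_mul]
    have h6 : ‖gg n (V n E x s) - 1‖ * ‖GG n E x s‖ ≤ (3 * ‖V n E x s‖) * 1.1 :=
      mul_le_mul h1 h4 (norm_nonneg _) (by positivity)
    have := norm_nonneg (x * Lp n E s)
    linarith

lemma GG_bounds (h : Orb n E) {x : ℂ} (hx : x ≠ 0) {r : ℕ}
    (hX : ∑ s ∈ range r, ‖x * Lp n E s‖ ≤ 1 / 200) (s : ℕ) (hs : s ≤ r) :
    0.97 ≤ ‖GG n E x s‖ ∧ ‖GG n E x s‖ ≤ 1.03 := by
  have h1 := GG_est h hx hX s hs
  have hT : ∑ i ∈ range s, ‖x * Lp n E i‖ ≤ 1 / 200 :=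
    (sum_le_sum_of_subset_of_nonneg (range_mono hs) fun _ _ _ => norm_nonneg _).trans hX
  have h2 := norm_sub_norm_le (GG n E x s) 1
  have h3 := norm_sub_norm_le 1 (GG n E x s)
  rw [norm_one] at h2 h3
  rw [norm_sub_rev] at h3
  constructor <;> linarith

/-- the logarithmic derivative of the deviation -/
lemma ww_est (h : Orb n E) {t r : ℕ} (hn : 1000 ≤ n) (hrt : r ≤ t)
    (h1 : 1 ≤ ‖et n E t‖)
    (het : ∑ s ∈ range t, ‖et n E s‖ ≤ 1 / 10 ^ 5 * ‖et n E t‖)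
    (hX : ∑ s ∈ range r, ‖E t * Lp n E s‖ ≤ 1 / 200) :
    ∀ s ≤ r, ‖ww n E t s - n * et n E t‖ ≤ 0.05 * (n * ‖et n E t‖) := by
  have hn0 : 0 < n := by omega
  have hnR : (1000 : ℝ) ≤ n := by exact_mod_cast hn
  set A := ‖et n E t‖ with hA
  have key : ∀ s ≤ r, ‖ww n E t s - n * et n E t‖ ≤ 1 +
      7 * (n * A) * (∑ i ∈ range s, ‖E t * Lp n E i‖) + n * (∑ i ∈ range s, ‖et n E i‖) +
      ∑ i ∈ range s, ‖et n E (i + 1)‖ := by
    intro s
    induction s with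
    | zero =>
      intro _
      simp [ww]
    | succ s ih =>
      intro hs
      have ih := ih (by omega)
      have hw : ‖ww n E t s‖ ≤ 1.05 * (n * A) := by
        have e1 : ∑ i ∈ range s, ‖E t * Lp n E i‖ ≤ 1 / 200 :=
          (sum_le_sum_of_subset_of_nonneg (range_mono (by omega))
            fun _ _ _ => norm_nonneg _).trans hX
        have e2 : ∑ i ∈ range s, ‖et n E i‖ ≤ 1 / 10 ^ 5 * A :=
          (sum_le_sum_of_subset_of_nonneg (range_mono (by omega))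
            fun _ _ _ => norm_nonneg _).trans het
        have e3 : ∑ i ∈ range s, ‖et n E (i + 1)‖ ≤ (1 / 10 ^ 5 + 1) * A := by
          have e4 : ∑ i ∈ range s, ‖et n E (i + 1)‖ ≤ ∑ i ∈ range (s + 1), ‖et n E i‖ := by
            rw [sum_range_succ']
            have := norm_nonneg (et n E 0)
            linarith
          have e5 : ∑ i ∈ range (s + 1), ‖et n E i‖ ≤ ∑ i ∈ range (t + 1), ‖et n E i‖ :=
            sum_le_sum_of_subset_of_nonneg (range_mono (by omega)) fun _ _ _ => norm_nonneg _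
          rw [sum_range_succ _ t] at e5
          linarith
        have e6 := norm_sub_norm_le (ww n E t s) (n * et n E t)
        rw [norm_mul, Complex.norm_natCast, ← hA] at e6
        have e7 : (0 : ℝ) ≤ n * A := by positivity
        have e8 : (1000 : ℝ) * A ≤ n * A := by gcongr
        have e9 : 7 * (n * A) * (∑ i ∈ range s, ‖E t * Lp n E i‖) ≤ 7 * (n * A) * (1 / 200) := by
          gcongr
        have e10 : (n : ℝ) * (∑ i ∈ range s, ‖et n E i‖) ≤ n * (1 / 10 ^ 5 * A) := by gcongr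
        have e11 : (n : ℝ) * (1 / 10 ^ 5 * A) = 1 / 10 ^ 5 * (n * A) := by ring
        nlinarith
      have h3 := gg_est hn0 (v := V n E (E t) s) (by
        have := V_small h hX s (by omega)
        linarith) (V_ne h (h.ne0 t) hX s (by omega))
      have h4 := (V_bounds h hX s (by omega)).2
      have h5 : ww n E t (s + 1) - n * et n E t =
          (gg n (V n E (E t) s) - 1) * ww n E t s + (ww n E t s - n * et n E t) +
          (n * et n E s - et n E (s + 1)) := by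
        rw [ww]; ring
      rw [h5, sum_range_succ, sum_range_succ, sum_range_succ]
      have h6 : ‖(gg n (V n E (E t) s) - 1) * ww n E t s‖ ≤
          7 * (n * A) * ‖E t * Lp n E s‖ := by
        rw [norm_mul]
        have e0 : (0 : ℝ) ≤ n * A * ‖E t * Lp n E s‖ := by positivity
        calc ‖gg n (V n E (E t) s) - 1‖ * ‖ww n E t s‖
            ≤ (3 * (1.02 * ‖E t * Lp n E s‖)) * (1.05 * (n * A)) := by
              apply mul_le_mul (h3.trans (by gcongr)) hw (norm_nonneg _) (by positivity)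
          _ ≤ _ := by nlinarith
      have h7 : ‖n * et n E s - et n E (s + 1)‖ ≤ n * ‖et n E s‖ + ‖et n E (s + 1)‖ := by
        refine (norm_sub_le _ _).trans ?_
        rw [norm_mul, Complex.norm_natCast]
      have h8 := norm_add_le ((gg n (V n E (E t) s) - 1) * ww n E t s +
        (ww n E t s - n * et n E t)) (n * et n E s - et n E (s + 1))
      have h9 := norm_add_le ((gg n (V n E (E t) s) - 1) * ww n E t s)
        (ww n E t s - n * et n E t)
      nlinarith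
  intro s hs
  refine (key s hs).trans ?_
  have e1 : ∑ i ∈ range s, ‖E t * Lp n E i‖ ≤ 1 / 200 :=
    (sum_le_sum_of_subset_of_nonneg (range_mono hs) fun _ _ _ => norm_nonneg _).trans hX
  have e2 : ∑ i ∈ range s, ‖et n E i‖ ≤ 1 / 10 ^ 5 * A :=
    (sum_le_sum_of_subset_of_nonneg (range_mono (by omega)) fun _ _ _ => norm_nonneg _).trans het
  have e3 : ∑ i ∈ range s, ‖et n E (i + 1)‖ ≤ (1 / 10 ^ 5 + 1) * A := by
    have e4 : ∑ i ∈ range s, ‖et n E (i + 1)‖ ≤ ∑ i ∈ range (s + 1), ‖et n E i‖ := by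
      rw [sum_range_succ']
      have := norm_nonneg (et n E 0)
      linarith
    have e5 : ∑ i ∈ range (s + 1), ‖et n E i‖ ≤ ∑ i ∈ range (t + 1), ‖et n E i‖ :=
      sum_le_sum_of_subset_of_nonneg (range_mono (by omega)) fun _ _ _ => norm_nonneg _
    rw [sum_range_succ _ t] at e5
    linarith
  have e8 : (1000 : ℝ) * A ≤ n * A := by gcongr
  have e9 : 7 * (n * A) * (∑ i ∈ range s, ‖E t * Lp n E i‖) ≤ 7 * (n * A) * (1 / 200) := by
    gcongr
  have e10 : (n : ℝ) * (∑ i ∈ range s, ‖et n E i‖) ≤ n * (1 / 10 ^ 5 * A) := by gcongr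
  have e11 : (n : ℝ) * (1 / 10 ^ 5 * A) = 1 / 10 ^ 5 * (n * A) := by ring
  nlinarith

end shadow

end Pool.Agent.helper54.CR
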