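import Pool.Agent.helper54.CR.Step

/-!
# The sequence of good times
-/

set_option autoImplicit false

open Finset

namespace Pool.Agent.helper54.CR

variable {n : ℕ} {E : ℕ → ℂ}

/-- record times of the products -/
def RecE (n : ℕ) (E : ℕ → ℂ) (t : ℕ) : Prop := ∀ i < t, ‖Lp n E i‖ < ‖Lp n E t‖

/-- The gap condition at time `t`. -/
def GapAt (n : ℕ) (E : ℕ → ℂ) (t : ℕ) : Prop :=
  ∀ s ≤ t, RecE n E s → RecE n E t → ‖E s‖ < 1 → ‖E t‖ < 1 →
    ‖E t * Lp n E s‖ < 1 / KK ∨ KK < ‖E t * Lp n E s‖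

lemma good_rec (h : Orb n E) {t : ℕ} (hg : Good n E t) : RecE n E t := by
  intro i hi
  have h1 : ‖Lp n E i‖ ≤ ∑ s ∈ range t, ‖Lp n E s‖ :=
    single_le_sum (f := fun s => ‖Lp n E s‖) (fun _ _ => norm_nonneg _) (mem_range.2 hi)
  have h2 := hg.hL
  have h3 : 0 < ‖Lp n E t‖ := norm_pos_iff.2 (Lp_ne_zero h t)
  linarith

theorem good_step (h : Orb n E) (hnK : KK ≤ 2 * n) (hE0 : KK ≤ ‖E 0‖) {t : ℕ}
    (hgap : GapAt n E t) (hg : Good n E t) :
    (‖E t‖ < 1 ∧ ‖E t * Lp n E t‖ < 1 / KK) ∨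
      ∃ t', t < t' ∧ t' ≤ 2 * t + 3 ∧ Good n E t' ∧ 10 ^ 5 * ‖Lp n E t‖ ≤ ‖Lp n E t'‖ := by
  classical
  have hKK := KK_ge
  by_cases hc : ‖E t‖ < 1 ∧ ‖E t * Lp n E t‖ < 1 / KK
  · exact Or.inl hc
  right
  have hrec := good_rec h hg
  have hEt0 : 0 < ‖E t‖ := norm_pos_iff.2 (h.ne0 t)
  have hex : ∃ r, r ≤ t ∧ 1 / 1000 ≤ ‖E t * Lp n E r‖ := by
    rcases lt_or_ge ‖E t‖ 1 with h1 | h1
    · refine ⟨t, le_rfl, ?_⟩
      rcases hgap t le_rfl hrec hrec h1 h1 with h2 | h2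
      · exact absurd ⟨h1, h2⟩ hc
      · linarith
    · refine ⟨0, Nat.zero_le _, ?_⟩
      rw [Lp, mul_one]; linarith
  set r := Nat.find hex with hr
  obtain ⟨hrt, hr1⟩ := Nat.find_spec hex
  rw [← hr] at hrt hr1
  have hmin : ∀ s < r, ‖E t * Lp n E s‖ < 1 / 1000 := by
    intro s hs
    by_contra h1
    rw [not_lt] at h1
    exact Nat.find_min hex hs ⟨by omega, h1⟩
  have hrecr : RecE n E r := by
    intro i hi
    have h1 := (hmin i hi).trans_le hr1
    rw [norm_mul, norm_mul] at h1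
    exact lt_of_mul_lt_mul_left h1 hEt0.le
  have hX : ∑ s ∈ range r, ‖E t * Lp n E s‖ ≤ 1 / 200 := by
    have h1 : ∀ s < r, ‖Lp n E s‖ ≤ 1 / 1000 / ‖E t‖ := by
      intro s hs
      have := hmin s hs
      rw [norm_mul] at this
      rw [le_div_iff₀ hEt0]
      linarith
    have h2 : ∑ s ∈ range r, ‖E t * Lp n E s‖ = ‖E t‖ * ∑ s ∈ range r, ‖Lp n E s‖ := by
      rw [mul_sum]; exact sum_congr rfl fun _ _ => norm_mul _ _
    rcases hg.hm r hrt _ h1 with h3 | h3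
    · rw [h2]
      have h4 : ‖E t‖ * ∑ s ∈ range r, ‖Lp n E s‖ ≤ ‖E t‖ * (4 * (1 / 1000 / ‖E t‖)) :=
        mul_le_mul_of_nonneg_left h3 hEt0.le
      have h5 : ‖E t‖ * (4 * (1 / 1000 / ‖E t‖)) = 4 / 1000 := by field_simp
      linarith
    · rw [h3]; simp
  rcases le_or_gt (10 ^ 6) ‖E t * Lp n E r‖ with hs | hs
  · obtain ⟨h1, h2⟩ := step_strong h hnK hE0 hrt hg hX hs
    exact ⟨t + 1 + r, by omega, by omega, h1, h2⟩
  · have h1000 : 1 / KK < 1 / 1000 := one_div_lt_one_div_of_lt (by norm_num) (by linarith)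
    have hEr : 1 ≤ ‖E r‖ := by
      rcases lt_or_ge ‖E t‖ 1 with h1 | h1
      · by_contra h2
        rw [not_le] at h2
        rcases hgap r hrt hrecr hrec h2 h1 with h3 | h3
        · linarith
        · linarith
      · have hr0 : r = 0 := by
          have : r ≤ 0 := by
            rw [hr]
            apply Nat.find_min'
            exact ⟨Nat.zero_le _, by rw [Lp, mul_one]; linarith⟩
          omega
        rw [hr0]; linarith
    have hrt' : r < t := by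
      rcases hrt.eq_or_lt with h1 | h1
      · exfalso
        rcases lt_or_ge ‖E t‖ 1 with h2 | h2
        · rw [h1] at hEr; linarith
        · have hr0 : r = 0 := by
            have : r ≤ 0 := by
              rw [hr]
              apply Nat.find_min'
              exact ⟨Nat.zero_le _, by rw [Lp, mul_one]; linarith⟩
            omega
          have ht0 : t = 0 := by omega
          rw [hr0, ht0, Lp, mul_one] at hs
          linarith
      · exact h1
    obtain ⟨t', ht1, ht2, hG, hL⟩ := step_neutral h hnK hE0 hrt' hg hX hr1 hs.le hEr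
    exact ⟨t', by omega, by omega, hG, hL⟩

/-- The alternative: an attracting situation at a good time, or late good times with large
products. -/
theorem good_times (h : Orb n E) (hnK : KK ≤ 2 * n) (hE0 : KK ≤ ‖E 0‖) {N : ℕ}
    (hgap : ∀ t < N, GapAt n E t) {k : ℕ} (hk : 3 * 2 ^ k ≤ N + 2) :
    (∃ t, Good n E t ∧ ‖E t‖ < 1 ∧ ‖E t * Lp n E t‖ < 1 / KK) ∨
      ∃ t, Good n E t ∧ (10 ^ 5) ^ k ≤ ‖Lp n E t‖ ∧
        (1 ≤ ‖E t‖ ∨ 1 ≤ ‖E t * Lp n E t‖) := by
  have hKK := KK_ge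
  by_cases hc : ∃ t, Good n E t ∧ ‖E t‖ < 1 ∧ ‖E t * Lp n E t‖ < 1 / KK
  · exact Or.inl hc
  right
  have hind : ∀ j ≤ k, ∃ t, t + 3 ≤ 3 * 2 ^ j ∧ Good n E t ∧ (10 ^ 5) ^ j ≤ ‖Lp n E t‖ := by
    intro j
    induction j with
    | zero => intro _; exact ⟨0, by simp, good_zero n E, by simp [Lp]⟩
    | succ j ih =>
      intro hj
      obtain ⟨t, h3, hg, ht⟩ := ih (by omega)
      have h4 : 3 * 2 ^ (j + 1) ≤ 3 * 2 ^ k :=
        Nat.mul_le_mul_left 3 (Nat.pow_le_pow_right (by norm_num) hj)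
      have h5 : 3 * 2 ^ (j + 1) = 2 * (3 * 2 ^ j) := by rw [pow_succ]; ring
      rcases good_step h hnK hE0 (hgap t (by omega)) hg with h1 | ⟨t', -, h6, hg', ht'⟩
      · exact absurd ⟨t, hg, h1⟩ hc
      · refine ⟨t', by omega, hg', ?_⟩
        rw [pow_succ]
        linarith
  obtain ⟨t, h3, hg, ht⟩ := hind k le_rfl
  refine ⟨t, hg, ht, ?_⟩
  rcases lt_or_ge ‖E t‖ 1 with h1 | h1
  · right
    rcases hgap t (by omega) t le_rfl (good_rec h hg) (good_rec h hg) h1 h1 with h2 | h2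
    · exact absurd ⟨t, hg, h1, h2⟩ hc
    · linarith
  · exact Or.inl h1

end Pool.Agent.helper54.CR
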