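import Pool.Agent.helper54.CR.Block

/-!
# Growth along free times
-/

set_option autoImplicit false

open Finset

namespace Pool.Agent.helper54.CR

/-- the absolute constant -/
noncomputable def KK : ℝ := Real.exp 10000000000000

/-- an auxiliary constant -/
noncomputable def HH : ℝ := Real.exp 10000000

lemma KK_ge : 10000000000001 ≤ KK := by
  have := Real.add_one_le_exp 10000000000000
  rw [KK]; linarith

lemma HH_ge : 10000001 ≤ HH := by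
  have := Real.add_one_le_exp 10000000
  rw [HH]; linarith

lemma HH_le_KK : 100 * HH ≤ KK := by
  have h1 : KK = Real.exp 9999990000000 * HH := by
    rw [KK, HH, ← Real.exp_add]; norm_num
  have h2 := Real.add_one_le_exp 9999990000000
  rw [h1]
  have h3 : 0 < HH := Real.exp_pos _
  nlinarith

/-- good (free) times -/
structure Good (n : ℕ) (E : ℕ → ℂ) (t : ℕ) : Prop where
  hL : ∑ s ∈ range t, ‖Lp n E s‖ ≤ 1 / 10 ^ 5 * ‖Lp n E t‖
  het : ∑ s ∈ range t, ‖et n E s‖ ≤ 1 / 10 ^ 5 * ‖et n E t‖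
  hm : ∀ m ≤ t, ∀ B : ℝ, (∀ s < m, ‖Lp n E s‖ ≤ B) → ∑ s ∈ range m, ‖Lp n E s‖ ≤ 4 * B ∨ m = 0
  hv : ‖Lp n E t‖ ≤ ‖et n E t‖ ^ 2
  h1 : 1 ≤ ‖et n E t‖
  hH : t = 0 ∨ HH ≤ ‖et n E t‖

lemma good_zero (n : ℕ) (E : ℕ → ℂ) : Good n E 0 where
  hL := by simp
  het := by simp
  hm := by
    intro m hm B _
    right; omega
  hv := by simp [Lp, et]
  h1 := by simp [et]
  hH := Or.inl rfl

variable {n : ℕ} {E : ℕ → ℂ}

lemma frac_low {v : ℂ} {B : ℝ} (hB : 0 ≤ B) (hBn : B ≤ n) (hv : B ≤ ‖v‖)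
    (hne : 1 + v / n ≠ 0) : B / 2 ≤ ‖v / (1 + v / n)‖ := by
  have h0 : 0 < ‖1 + v / n‖ := norm_pos_iff.2 hne
  rw [norm_div, le_div_iff₀ h0]
  have h1 : ‖1 + v / n‖ ≤ 1 + ‖v‖ / n := by
    have := norm_add_le (1 : ℂ) (v / n)
    rwa [norm_one, norm_div, Complex.norm_natCast] at this
  have h2 : B / 2 * ‖1 + v / n‖ ≤ B / 2 * (1 + ‖v‖ / n) :=
    mul_le_mul_of_nonneg_left h1 (by linarith)
  have h3 : B / n ≤ 1 := div_le_one_of_le₀ hBn (hB.trans hBn)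
  have h4 : B / 2 * (1 + ‖v‖ / n) = B / 2 + (B / n) * (‖v‖ / 2) := by ring
  have h5 : (B / n) * (‖v‖ / 2) ≤ 1 * (‖v‖ / 2) :=
    mul_le_mul_of_nonneg_right h3 (by positivity)
  linarith

lemma frac_small {v : ℂ} (hn : 0 < n) (hv : 100 * ‖v‖ ≤ n) :
    0.99 * ‖v‖ ≤ ‖v / (1 + v / n)‖ ∧ ‖v / (1 + v / n)‖ ≤ 1.02 * ‖v‖ := by
  have hn' : (0 : ℝ) < n := by exact_mod_cast hn
  have h0 : ‖v / n‖ ≤ 0.01 := by
    rw [norm_div, Complex.norm_natCast, div_le_iff₀ hn']; linarith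
  have h1 : ‖1 + v / n‖ ≤ 1.01 := by
    have := norm_add_le (1 : ℂ) (v / n)
    rw [norm_one] at this
    linarith
  have h2 : 0.99 ≤ ‖1 + v / n‖ := by
    have := norm_sub_norm_le (1 : ℂ) (-(v / n))
    rw [sub_neg_eq_add, norm_one, norm_neg] at this
    linarith
  have h3 := norm_nonneg v
  rw [norm_div]
  constructor
  · rw [le_div_iff₀ (by linarith)]; nlinarith
  · rw [div_le_iff₀ (by linarith)]; nlinarith

/-- a direct step -/
lemma direct {u : ℕ} (hn : 1000 ≤ n) (h1 : 1 ≤ ‖et n E u‖)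
    (h2 : 200 ≤ ‖Lam n E u‖ * ‖et n E u‖) :
    0.99 * (‖Lam n E u‖ * ‖et n E u‖) ≤ ‖et n E (u + 1)‖ ∧
      ‖et n E (u + 1)‖ ≤ 1.01 * (‖Lam n E u‖ * ‖et n E u‖) := by
  have hnR : (1000 : ℝ) ≤ n := by exact_mod_cast hn
  have e1 : et n E (u + 1) - Lam n E u * et n E u = -(Lam n E u * (1 / n)) + 1 := by
    rw [et]; ring
  have e2 : ‖et n E (u + 1) - Lam n E u * et n E u‖ ≤ ‖Lam n E u‖ * (1 / n) + 1 := by
    rw [e1]
    refine (norm_add_le _ _).trans ?_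
    rw [norm_neg, norm_mul, norm_div, norm_one, Complex.norm_natCast]
  have e3 : ‖Lam n E u‖ * (1 / n) ≤ ‖Lam n E u‖ * (1 / 1000 * ‖et n E u‖) := by
    apply mul_le_mul_of_nonneg_left _ (norm_nonneg _)
    have : (1 : ℝ) / n ≤ 1 / 1000 := one_div_le_one_div_of_le (by norm_num) hnR
    linarith
  have e4 := norm_sub_norm_le (et n E (u + 1)) (Lam n E u * et n E u)
  have e5 := norm_sub_norm_le (Lam n E u * et n E u) (et n E (u + 1))
  rw [norm_sub_rev (Lam n E u * et n E u)] at e5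
  rw [norm_mul] at e4 e5
  constructor <;> linarith

/-- extending the bound for partial sums -/
lemma hm_ext {t m : ℕ} (hg : Good n E t) (hm : ∀ B : ℝ, t < m → (∀ s < m, ‖Lp n E s‖ ≤ B) →
    ∑ s ∈ range m, ‖Lp n E s‖ ≤ 4 * B) (B : ℝ) (hB : ∀ s < m, ‖Lp n E s‖ ≤ B) :
    ∑ s ∈ range m, ‖Lp n E s‖ ≤ 4 * B ∨ m = 0 := by
  rcases le_or_gt m t with h | h
  · exact hg.hm m h B hB
  · exact Or.inl (hm B h hB)

/-- the comparison of `Lp` and `et` at the end of a block -/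
lemma hv_aux {A l Q P L1 e1 L' e' : ℝ} (hA : 0 ≤ A) (hl : l ≤ A ^ 2) (hQ : 0 ≤ Q) (hP : 0 ≤ P)
    (hPQ : 2 ≤ P * Q) (hL1 : L1 ≤ 1.1 * Q * l) (he1 : 0.88 * Q * A ≤ e1) (hL' : L' ≤ P * L1)
    (he' : 0.98 * (P * e1) ≤ e') : L' ≤ e' ^ 2 := by
  have h1 : L' ≤ 1.1 * (P * Q) * A ^ 2 := by
    calc L' ≤ P * L1 := hL'
      _ ≤ P * (1.1 * Q * l) := mul_le_mul_of_nonneg_left hL1 hP
      _ = 1.1 * (P * Q) * l := by ring
      _ ≤ 1.1 * (P * Q) * A ^ 2 := mul_le_mul_of_nonneg_left hl (by positivity)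
  have h2 : 0.86 * (P * Q) * A ≤ e' := by
    have h3 : P * (0.88 * Q * A) ≤ P * e1 := mul_le_mul_of_nonneg_left he1 hP
    have h4 : 0 ≤ P * Q * A := by positivity
    nlinarith
  have h5 : (0.86 * (P * Q) * A) ^ 2 ≤ e' ^ 2 := pow_le_pow_left₀ (by positivity) h2 2
  have h6 : 1.1 * (P * Q) * A ^ 2 ≤ (0.86 * (P * Q) * A) ^ 2 := by
    have h7 : 0 ≤ (P * Q) * A ^ 2 := by positivity
    have h8 : (0.86 * (P * Q) * A) ^ 2 = 0.7396 * (P * Q) * ((P * Q) * A ^ 2) := by ring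
    rw [h8]
    nlinarith
  linarith

end Pool.Agent.helper54.CR
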