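import Mathlib

/-!
# Shadowing identities for the sequence `E (j + 1) = E 0 (1 + E j / n) ^ n`
-/

set_option autoImplicit false

open Finset

namespace Pool.Agent.helper54.CR

/-- the normalised critical orbit -/
structure Orb (n : ℕ) (E : ℕ → ℂ) : Prop where
  n_ne : (n : ℂ) ≠ 0
  step : ∀ j, E (j + 1) = E 0 * (1 + E j / n) ^ n
  ne : ∀ j, 1 + E j / n ≠ 0
  ne0 : ∀ j, E j ≠ 0

/-- one step multiplier -/
noncomputable def Lam (n : ℕ) (E : ℕ → ℂ) (j : ℕ) : ℂ := E j / (1 + E j / n)

/-- products of multipliers -/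
noncomputable def Lp (n : ℕ) (E : ℕ → ℂ) : ℕ → ℂ
  | 0 => 1
  | j + 1 => Lam n E j * Lp n E j

/-- logarithmic parameter derivative -/
noncomputable def et (n : ℕ) (E : ℕ → ℂ) : ℕ → ℂ
  | 0 => 1
  | j + 1 => Lam n E j * (et n E j - 1 / n) + 1

/-- deviation from the critical orbit -/
noncomputable def V (n : ℕ) (E : ℕ → ℂ) (x : ℂ) : ℕ → ℂ
  | 0 => x
  | r + 1 => Lam n E r * ((1 + V n E x r / n) ^ n - 1)

/-- distortion factor -/
noncomputable def gg (n : ℕ) (v : ℂ) : ℂ := v * (1 + v / n) ^ (n - 1) / ((1 + v / n) ^ n - 1)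

/-- product of distortion factors -/
noncomputable def GG (n : ℕ) (E : ℕ → ℂ) (x : ℂ) : ℕ → ℂ
  | 0 => 1
  | r + 1 => gg n (V n E x r) * GG n E x r

/-- logarithmic derivative of the deviation -/
noncomputable def ww (n : ℕ) (E : ℕ → ℂ) (t : ℕ) : ℕ → ℂ
  | 0 => n * et n E t - 1
  | r + 1 => gg n (V n E (E t) r) * ww n E t r + n * et n E r - et n E (r + 1)

section algebra

variable {n : ℕ} {E : ℕ → ℂ}

lemma one_add_mul (h : Orb n E) (x : ℂ) (r : ℕ) :
    1 + E r * (1 + V n E x r / n) ^ n / n = (1 + E r / n) * (1 + V n E x (r + 1) / n) := by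
  have h1 := h.ne r
  have h3 : (1 + E r / n) * Lam n E r = E r := mul_div_cancel₀ _ h1
  have h4 : (1 + E r / n) * (1 + V n E x (r + 1) / n) = (1 + E r / n) +
      ((1 + E r / n) * Lam n E r) * ((1 + V n E x r / n) ^ n - 1) / n := by
    rw [V]; ring
  rw [h4, h3]
  ring

lemma E_shadow (h : Orb n E) (t r : ℕ) :
    E (t + 1 + r) = E r * (1 + V n E (E t) r / n) ^ n := by
  induction r with
  | zero => rw [add_zero, h.step t, V]
  | succ r ih =>
    rw [← add_assoc, h.step (t + 1 + r), ih, one_add_mul h, mul_pow, h.step r]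
    ring

lemma one_add_E_shadow (h : Orb n E) (t r : ℕ) :
    1 + E (t + 1 + r) / n = (1 + E r / n) * (1 + V n E (E t) (r + 1) / n) := by
  rw [E_shadow h, one_add_mul h]

lemma one_add_V_ne (h : Orb n E) (t r : ℕ) : 1 + V n E (E t) r / n ≠ 0 := by
  cases r with
  | zero => exact h.ne t
  | succ r =>
    have h1 := h.ne (t + 1 + r)
    rw [one_add_E_shadow h] at h1
    exact right_ne_zero_of_mul h1

lemma Lam_shadow (h : Orb n E) (t r : ℕ) :
    Lam n E (t + 1 + r) = Lam n E r * (1 + V n E (E t) r / n) ^ n /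
      (1 + V n E (E t) (r + 1) / n) := by
  have h1 := h.ne r
  have h2 := one_add_V_ne h t (r + 1)
  rw [Lam, one_add_E_shadow h, E_shadow h, Lam]
  field_simp

lemma Lp_shadow (h : Orb n E) (t r : ℕ)
    (hne : ∀ s < r, (1 + V n E (E t) s / n) ^ n - 1 ≠ 0) :
    Lp n E (t + 1 + r) =
      Lp n E t * (V n E (E t) r / (1 + V n E (E t) r / n)) * GG n E (E t) r := by
  have hn0 : n ≠ 0 := by
    rintro rfl
    exact h.n_ne (by simp)
  induction r with
  | zero => rw [add_zero, Lp, V, GG, Lam]; ring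
  | succ r ih =>
    have h1 := one_add_V_ne h t r
    have h2 := one_add_V_ne h t (r + 1)
    have h3 := hne r (Nat.lt_succ_self r)
    rw [← add_assoc, Lp, Lam_shadow h, ih fun s hs => hne s (by omega), GG, gg]
    have h4 : V n E (E t) (r + 1) = Lam n E r * ((1 + V n E (E t) r / n) ^ n - 1) := rfl
    have h5 : (1 + V n E (E t) r / n) ^ n =
        (1 + V n E (E t) r / n) ^ (n - 1) * (1 + V n E (E t) r / n) := by
      rw [← pow_succ, Nat.sub_add_cancel (Nat.one_le_iff_ne_zero.2 hn0)]
    have h6 : V n E (E t) (r + 1) / (1 + V n E (E t) (r + 1) / n) =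
        Lam n E r * ((1 + V n E (E t) r / n) ^ n - 1) / (1 + V n E (E t) (r + 1) / n) := by
      rw [← h4]
    rw [h6]
    set a := 1 + V n E (E t) r / n with ha
    set b := 1 + V n E (E t) (r + 1) / n with hb
    set v := V n E (E t) r with hv
    have h7 : Lam n E r * a ^ n / b * (Lp n E t * (v / a) * GG n E (E t) r) =
        Lam n E r * a ^ (n - 1) / b * (Lp n E t * v * GG n E (E t) r) := by
      rw [h5]; field_simp
    rw [h7]
    field_simp

lemma et_shadow (h : Orb n E) (t r : ℕ)
    (hne : ∀ s < r, (1 + V n E (E t) s / n) ^ n - 1 ≠ 0) :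
    et n E (t + 1 + r) = et n E r +
      (V n E (E t) r / (1 + V n E (E t) r / n)) * (ww n E t r / n) := by
  have hn0 : n ≠ 0 := by
    rintro rfl
    exact h.n_ne (by simp)
  have hn := h.n_ne
  induction r with
  | zero =>
    have h1 := h.ne t
    have e1 : et n E (t + 1 + 0) = Lam n E t * (et n E t - 1 / n) + 1 := rfl
    have e2 : et n E 0 = 1 := rfl
    have e3 : V n E (E t) 0 / (1 + V n E (E t) 0 / n) = Lam n E t := rfl
    have e4 : ww n E t 0 = n * et n E t - 1 := rfl
    rw [e1, e2, e3, e4]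
    field_simp
    ring
  | succ r ih =>
    have h1 := one_add_V_ne h t r
    have h2 := one_add_V_ne h t (r + 1)
    have h3 := hne r (Nat.lt_succ_self r)
    rw [← add_assoc, et, Lam_shadow h, ih fun s hs => hne s (by omega), ww, gg]
    have h4 : V n E (E t) (r + 1) = Lam n E r * ((1 + V n E (E t) r / n) ^ n - 1) := rfl
    have h8 : et n E (r + 1) = Lam n E r * (et n E r - 1 / n) + 1 := rfl
    have h5 : (1 + V n E (E t) r / n) ^ n =
        (1 + V n E (E t) r / n) ^ (n - 1) * (1 + V n E (E t) r / n) := by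
      rw [← pow_succ, Nat.sub_add_cancel (Nat.one_le_iff_ne_zero.2 hn0)]
    rw [h8]
    set a := 1 + V n E (E t) r / n with ha
    have hb : 1 + V n E (E t) (r + 1) / n = 1 + Lam n E r * (a ^ n - 1) / n := by rw [h4]
    rw [hb] at h2 ⊢
    rw [h4]
    set v := V n E (E t) r with hv
    set l := Lam n E r with hl
    set w := ww n E t r with hw
    set e := et n E r with he
    set b := 1 + l * (a ^ n - 1) / n with hb
    have hb' : l * (a ^ n - 1) = n * (b - 1) := by rw [hb]; field_simp; ring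
    have key1 : l * a ^ n / b * (e + v / a * (w / n) - 1 / n) + 1 =
        l * v * a ^ (n - 1) * w / (n * b) + (l * a ^ n * (e - 1 / n) + b) / b := by
      have e1 : a ^ n * (v / a) = v * a ^ (n - 1) := by
        rw [h5]; field_simp
      have e2 : l * a ^ n / b * (e + v / a * (w / n) - 1 / n) + 1 =
          l * (a ^ n * (v / a)) * w / (n * b) + (l * a ^ n * (e - 1 / n) + b) / b := by
        field_simp
        ring
      rw [e2, e1]; ring
    have key2 : l * (a ^ n - 1) / b *
        ((v * a ^ (n - 1) / (a ^ n - 1) * w + n * e - (l * (e - 1 / n) + 1)) / n) =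
        l * v * a ^ (n - 1) * w / (n * b) +
          l * (a ^ n - 1) / b * ((n * e - (l * (e - 1 / n) + 1)) / n) := by
      field_simp
      ring
    rw [key1, key2]
    have key3 : (l * a ^ n * (e - 1 / n) + b) / b = l * (e - 1 / n) + 1 +
        l * (a ^ n - 1) / b * ((n * e - (l * (e - 1 / n) + 1)) / n) := by
      rw [div_eq_iff h2]
      have e1 : (l * (e - 1 / n) + 1 +
          l * (a ^ n - 1) / b * ((n * e - (l * (e - 1 / n) + 1)) / n)) * b =
          (l * (e - 1 / n) + 1) * (b - l * (a ^ n - 1) / n) + l * (a ^ n - 1) * e := by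
        field_simp
        ring
      rw [e1, hb]
      field_simp
      ring
    rw [key3]
    ring

end algebra

end Pool.Agent.helper54.CR
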