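import Pool.Agent.helper54.CR.Growth

/-!
# From a good time to the next one
-/

set_option autoImplicit false

open Finset

namespace Pool.Agent.helper54.CR

variable {n : ℕ} {E : ℕ → ℂ}

/-- strong end of a block -/
lemma step_strong (h : Orb n E) (hnK : KK ≤ 2 * n) (hE0 : KK ≤ ‖E 0‖) {t r : ℕ} (hrt : r ≤ t)
    (hg : Good n E t)
    (hX : ∑ s ∈ range r, ‖E t * Lp n E s‖ ≤ 1 / 200) (hs : 10 ^ 6 ≤ ‖E t * Lp n E r‖) :
    Good n E (t + 1 + r) ∧ 10 ^ 5 * ‖Lp n E t‖ ≤ ‖Lp n E (t + 1 + r)‖ := by
  have hKK := KK_ge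
  have hHK := HH_le_KK
  have hHH := HH_ge
  have hnR : (1000000000000 : ℝ) ≤ n := by linarith
  have hn : 1000 ≤ n := by
    have : (1000 : ℝ) ≤ n := by linarith
    exact_mod_cast this
  obtain ⟨v, hv1, hv2, hne, -, hL1, hL2, he1, he2, hS, hSe⟩ :=
    block h hn hrt hg.h1 hg.het hg.hL hX
  set Q := ‖v / (1 + v / n)‖ with hQ
  set t' := t + 1 + r with ht'
  set A := ‖et n E t‖ with hA
  set l := ‖Lp n E t‖ with hl
  have hA1 : 1 ≤ A := hg.h1
  have hl0 : 0 ≤ l := norm_nonneg _
  have hQ1 : 0.49 * 10 ^ 6 ≤ Q := by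
    have := frac_low (n := n) (v := v) (B := 0.98 * 10 ^ 6) (by norm_num)
      (by linarith) (by linarith) hne
    linarith
  have her : ‖et n E r‖ ≤ A := by
    rcases hrt.eq_or_lt with h1 | h1
    · rw [h1]
    · have h2 : ‖et n E r‖ ≤ ∑ s ∈ range t, ‖et n E s‖ :=
        single_le_sum (f := fun s => ‖et n E s‖) (fun _ _ => norm_nonneg _) (mem_range.2 h1)
      have := hg.het
      linarith
  have hQA : 0.49 * 10 ^ 6 * A ≤ Q * A := mul_le_mul_of_nonneg_right hQ1 (by linarith)
  have he3 : 0.89 * (Q * A) ≤ ‖et n E t'‖ := by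
    have : 0.9 * Q * A = 0.9 * (Q * A) := by ring
    linarith
  have hgrow : 10 ^ 5 * l ≤ ‖Lp n E t'‖ := by
    have : 10 ^ 5 * l ≤ 0.9 * Q * l := by
      apply mul_le_mul_of_nonneg_right _ hl0
      linarith
    linarith
  refine ⟨⟨?_, ?_, ?_, ?_, ?_, ?_⟩, hgrow⟩
  · have h1 := hS t' le_rfl (by omega)
    have h2 : 0.49 * 10 ^ 6 * l ≤ Q * l := mul_le_mul_of_nonneg_right hQ1 hl0
    have h3 : 0.9 * Q * l = 0.9 * (Q * l) := by ring
    rw [h3] at hL1
    linarith
  · linarith
  · intro m hm B hB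
    refine hm_ext hg (fun B' htm hB' => ?_) B hB
    have h1 := hS m hm htm
    have h2 := hB' t htm
    have h3 : 0 ≤ B' := (norm_nonneg _).trans h2
    linarith
  · have h1 : ‖Lp n E t'‖ ≤ 1.1 * Q * A ^ 2 :=
      hL2.trans (mul_le_mul_of_nonneg_left hg.hv (by positivity))
    have h2 : (0.89 * (Q * A)) ^ 2 ≤ ‖et n E t'‖ ^ 2 := pow_le_pow_left₀ (by positivity) he3 2
    have h3 : 1.1 * Q * A ^ 2 ≤ (0.89 * (Q * A)) ^ 2 := by
      have e1 : (0.89 * (Q * A)) ^ 2 = 0.7921 * Q * (Q * A ^ 2) := by ring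
      have e2 : 0 ≤ Q * A ^ 2 := by positivity
      have e3 : 1.1 * (Q * A ^ 2) ≤ (0.7921 * Q) * (Q * A ^ 2) :=
        mul_le_mul_of_nonneg_right (by linarith) e2
      rw [e1]; linarith
    linarith
  · linarith
  · right
    rcases hg.hH with h0 | h0
    · subst h0
      have hr0 : r = 0 := by omega
      subst hr0
      have e1 : ‖E 0 * Lp n E 0‖ = ‖E 0‖ := by rw [Lp, mul_one]
      rw [e1] at hv1
      have h2 := frac_low (n := n) (v := v) (B := KK / 2) (by linarith) (by linarith)
        (by linarith) hne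
      have h3 : Q ≤ Q * A := le_mul_of_one_le_right (by linarith) hA1
      rw [← hQ] at h2
      linarith
    · linarith

/-- neutral end of a block -/
lemma step_neutral (h : Orb n E) (hnK : KK ≤ 2 * n) (hE0 : KK ≤ ‖E 0‖) {t r : ℕ} (hrt : r < t)
    (hg : Good n E t)
    (hX : ∑ s ∈ range r, ‖E t * Lp n E s‖ ≤ 1 / 200) (hs1 : 1 / 1000 ≤ ‖E t * Lp n E r‖)
    (hs2 : ‖E t * Lp n E r‖ ≤ 10 ^ 6) (hEr : 1 ≤ ‖E r‖) :
    ∃ t', t + 1 + r < t' ∧ t' ≤ t + 3 + r ∧
      Good n E t' ∧ 10 ^ 5 * ‖Lp n E t‖ ≤ ‖Lp n E t'‖ := by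
  have hKK := KK_ge
  have hHK := HH_le_KK
  have hHH := HH_ge
  have hnR : (1000000000000 : ℝ) ≤ n := by linarith
  have hn : 1000 ≤ n := by
    have : (1000 : ℝ) ≤ n := by linarith
    exact_mod_cast this
  have hn0 : 0 < n := by omega
  obtain ⟨v, hv1, hv2, hne, hEt, hL1, hL2, he1, he2, hS, hSe⟩ :=
    block h hn hrt.le hg.h1 hg.het hg.hL hX
  set Q := ‖v / (1 + v / n)‖ with hQ
  set t1 := t + 1 + r with ht1
  set A := ‖et n E t‖ with hA
  set l := ‖Lp n E t‖ with hl
  have hl0 : 0 ≤ l := norm_nonneg _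
  have hAH : HH ≤ A := by
    rcases hg.hH with h0 | h0
    · omega
    · exact h0
  have hA0 : 0 < A := by linarith
  have hvn : 100 * ‖v‖ ≤ n := by linarith
  obtain ⟨hQ1, hQ2⟩ := frac_small hn0 hvn
  rw [← hQ] at hQ1 hQ2
  have hQ3 : 0.00097 ≤ Q := by linarith
  have her : ‖et n E r‖ ≤ 1 / 10 ^ 5 * A := by
    have h2 : ‖et n E r‖ ≤ ∑ s ∈ range t, ‖et n E s‖ :=
      single_le_sum (f := fun s => ‖et n E s‖) (fun _ _ => norm_nonneg _) (mem_range.2 hrt)
    exact h2.trans hg.het
  have hQA : 0.00097 * A ≤ Q * A := mul_le_mul_of_nonneg_right hQ3 hA0.le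
  set e1 := ‖et n E t1‖ with he1def
  set L1 := ‖Lp n E t1‖ with hL1def
  have hL10 : 0 ≤ L1 := norm_nonneg _
  have he3 : 0.88 * Q * A ≤ e1 := by
    have a1 : 0.9 * Q * A = 0.9 * (Q * A) := by ring
    have a2 : 0.88 * Q * A = 0.88 * (Q * A) := by ring
    rw [a2]; rw [a1] at he1
    linarith
  have he4 : 0.00085 * A ≤ e1 := by
    have a2 : 0.88 * Q * A = 0.88 * (Q * A) := by ring
    linarith
  have he10 : 1 ≤ e1 := by
    linarith
  have hlL1 : l ≤ 1146 * L1 := by
    have : 0.00097 * l ≤ Q * l := mul_le_mul_of_nonneg_right hQ3 hl0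
    have a1 : 0.9 * Q * l = 0.9 * (Q * l) := by ring
    rw [a1] at hL1
    linarith
  have hAe1 : A ≤ 1177 * e1 := by linarith
  have hSL : ∑ s ∈ range t1, ‖Lp n E s‖ ≤ 1261 * L1 := by
    have := hS t1 le_rfl (by omega)
    linarith
  have hSe1 : ∑ s ∈ range t1, ‖et n E s‖ ≤ 1295 * e1 := by linarith
  have hEt1 : Real.exp (-3000000) ≤ ‖E t1‖ := by
    rw [hEt, norm_mul, norm_pow]
    have a1 := low_est hn0 (v := v) (by linarith [norm_nonneg v])
    have a2 : Real.exp (-3000000) ≤ Real.exp (-(2 * ‖v‖)) := by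
      apply Real.exp_le_exp.2
      linarith
    have a3 : 0 ≤ ‖1 + v / n‖ ^ n := by positivity
    exact (a2.trans a1).trans (le_mul_of_one_le_left a3 hEr)
  rcases le_or_gt (10000000000 : ℝ) ‖E t1‖ with hbig | hsmall
  · -- one direct step
    set P := ‖Lam n E t1‖ with hP
    have hP1 : 5000000000 ≤ P := by
      have := frac_low (n := n) (v := E t1) (B := 10000000000) (by norm_num)
        (by linarith) hbig (h.ne t1)
      have a5 : ‖E t1 / (1 + E t1 / n)‖ = P := rfl
      rw [a5] at this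
      linarith
    have hP0 : 0 ≤ P := norm_nonneg _
    have hd := direct hn he10 (u := t1) (by
      have : P * 1 ≤ P * e1 := mul_le_mul_of_nonneg_left he10 hP0
      linarith)
    rw [← hP, ← he1def] at hd
    have hLp2 : ‖Lp n E (t1 + 1)‖ = P * L1 := by rw [Lp, norm_mul]
    have hPe : 5000000000 * e1 ≤ P * e1 := mul_le_mul_of_nonneg_right hP1 (by linarith)
    have hPL : 5000000000 * L1 ≤ P * L1 := mul_le_mul_of_nonneg_right hP1 hL10
    refine ⟨t1 + 1, by omega, by omega, ⟨?_, ?_, ?_, ?_, ?_, ?_⟩, ?_⟩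
    · rw [sum_range_succ, hLp2]
      linarith
    · rw [sum_range_succ]
      linarith [hd.1]
    · intro m hm B hB
      refine hm_ext hg (fun B' htm hB' => ?_) B hB
      rcases Nat.lt_or_ge t1 m with h1 | h1
      · have h2 : m = t1 + 1 := by omega
        subst h2
        rw [sum_range_succ]
        have h3 := hS t1 le_rfl (by omega)
        have h4 := hB' t htm
        have h5 := hB' t1 h1
        have h6 : 0 ≤ B' := (norm_nonneg _).trans h4
        linarith
      · have h3 := hS m h1 htm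
        have h4 := hB' t htm
        have h6 : 0 ≤ B' := (norm_nonneg _).trans h4
        linarith
    · refine hv_aux (A := A) (l := l) (Q := Q) (P := P) (L1 := L1) (e1 := e1) hA0.le hg.hv
        (by linarith) hP0 ?_ hL2 he3 hLp2.le (by linarith [hd.1])
      have b1 : (5000000000 : ℝ) * 0.00097 ≤ P * Q :=
        mul_le_mul hP1 hQ3 (by norm_num) hP0
      linarith
    · linarith [hd.1]
    · right
      linarith [hd.1]
    · rw [hLp2]
      have : l * 10 ^ 5 ≤ 1146 * L1 * 10 ^ 5 := by linarith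
      linarith
  · -- two direct steps
    have hvn1 : 100 * ‖E t1‖ ≤ n := by linarith
    obtain ⟨hP11, hP12⟩ := frac_small hn0 hvn1
    set P1 := ‖Lam n E t1‖ with hP1
    have hP1' : ‖E t1 / (1 + E t1 / n)‖ = P1 := rfl
    rw [hP1'] at hP11 hP12
    have hP10 : 0.99 * Real.exp (-3000000) ≤ P1 := by linarith
    have hP1pos : 0 < P1 := by
      have := Real.exp_pos (-(3000000))
      linarith
    -- the product of `P1` and `e1` is large
    have hprod : 200 ≤ P1 * e1 := by
      have a1 : 0.99 * Real.exp (-3000000) * (0.00085 * HH) ≤ P1 * e1 :=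
        mul_le_mul hP10 (by linarith) (by positivity) hP1pos.le
      have a2 : Real.exp (-3000000) * HH = Real.exp (7000000) := by
        rw [HH, ← Real.exp_add]; norm_num
      have a3 := Real.add_one_le_exp (7000000)
      have a4 : 0.99 * Real.exp (-3000000) * (0.00085 * HH) =
          0.99 * 0.00085 * (Real.exp (-3000000) * HH) := by ring
      rw [a4, a2] at a1
      linarith
    have hd1 := direct hn he10 (u := t1) hprod
    rw [← hP1, ← he1def] at hd1
    set e2 := ‖et n E (t1 + 1)‖ with he2def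
    have he2 : 198 ≤ e2 := by linarith [hd1.1]
    -- the next multiplier
    have hE2 : KK * Real.exp (-20000000000) ≤ ‖E (t1 + 1)‖ := by
      rw [h.step t1, norm_mul, norm_pow]
      have a1 := low_est hn0 (v := E t1) (by linarith [norm_nonneg (E t1)])
      have a2 : Real.exp (-20000000000) ≤ Real.exp (-(2 * ‖E t1‖)) := by
        apply Real.exp_le_exp.2
        linarith
      exact mul_le_mul hE0 (a2.trans a1) (Real.exp_pos _).le (norm_nonneg _)
    set P2 := ‖Lam n E (t1 + 1)‖ with hP2
    have hP20 : Real.exp (9000000000000) ≤ P2 := by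
      have b0 : Real.exp (-20000000000) ≤ 1 := by
        rw [← Real.exp_zero]
        apply Real.exp_le_exp.2; norm_num
      have b1 : KK * Real.exp (-20000000000) / 2 ≤ n := by
        have : KK * Real.exp (-20000000000) ≤ KK * 1 :=
          mul_le_mul_of_nonneg_left b0 (by linarith)
        linarith
      have b2 : 0 ≤ KK * Real.exp (-20000000000) := by
        have : 0 < KK := Real.exp_pos _
        positivity
      have a1 := frac_low (n := n) (v := E (t1 + 1))
        (B := KK * Real.exp (-20000000000) / 2) (by linarith) b1 (by linarith) (h.ne _)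
      have a2 : KK * Real.exp (-20000000000) =
          Real.exp (9000000000000) * Real.exp (980000000000) := by
        rw [KK, ← Real.exp_add, ← Real.exp_add]; norm_num
      have a3 := Real.add_one_le_exp (980000000000)
      have a4 : 0 < Real.exp (9000000000000) := Real.exp_pos _
      have a5 : ‖E (t1 + 1) / (1 + E (t1 + 1) / n)‖ = P2 := rfl
      rw [a5, a2] at a1
      norm_num at a3
      have a6 : Real.exp (9000000000000) * 4 ≤
          Real.exp (9000000000000) * Real.exp (980000000000) := by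
        apply mul_le_mul_of_nonneg_left _ a4.le
        linarith
      linarith
    have hP2pos : 0 < P2 := (Real.exp_pos _).trans_le hP20
    have hP2big : 1000000000000 ≤ P2 := by
      have := Real.add_one_le_exp (9000000000000)
      linarith
    have hPP : 1000000000000 ≤ P2 * P1 := by
      have a1 : Real.exp (9000000000000) * (0.99 * Real.exp (-3000000)) ≤ P2 * P1 :=
        mul_le_mul hP20 hP10 (by positivity) hP2pos.le
      have a2 : Real.exp (9000000000000) * (0.99 * Real.exp (-3000000)) =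
          0.99 * Real.exp (8999997000000) := by
        have b1 : (8999997000000 : ℝ) = 9000000000000 + -3000000 := by norm_num
        rw [b1, Real.exp_add]; ring
      have a3 := Real.add_one_le_exp (8999997000000)
      rw [a2] at a1
      linarith
    have hd2 := direct hn (u := t1 + 1) (by linarith) (by
      rw [← he2def, ← hP2]
      have : P2 * 1 ≤ P2 * e2 := mul_le_mul_of_nonneg_left (by linarith) hP2pos.le
      linarith)
    rw [← hP2, ← he2def] at hd2
    have hLp2 : ‖Lp n E (t1 + 1)‖ = P1 * L1 := by rw [Lp, norm_mul]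
    have hLp3 : ‖Lp n E (t1 + 1 + 1)‖ = (P2 * P1) * L1 := by
      rw [Lp, norm_mul, hLp2, ← mul_assoc]
    have he3' : 0.98 * ((P2 * P1) * e1) ≤ ‖et n E (t1 + 1 + 1)‖ := by
      have a1 : P2 * (0.99 * (P1 * e1)) ≤ P2 * e2 := mul_le_mul_of_nonneg_left hd1.1 hP2pos.le
      have a2 : 0 ≤ P2 * P1 * e1 := by positivity
      have a3 : P2 * (0.99 * (P1 * e1)) = 0.99 * (P2 * P1 * e1) := by ring
      linarith [hd2.1]
    have hPPe : 1000000000000 * e1 ≤ (P2 * P1) * e1 := mul_le_mul_of_nonneg_right hPP (by linarith)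
    have hPPL : 1000000000000 * L1 ≤ (P2 * P1) * L1 := mul_le_mul_of_nonneg_right hPP hL10
    have hP2L : 1000000000000 * (P1 * L1) ≤ (P2 * P1) * L1 := by
      have : 1000000000000 * (P1 * L1) ≤ P2 * (P1 * L1) :=
        mul_le_mul_of_nonneg_right hP2big (by positivity)
      linarith
    have hP2e : 1000000000000 * e2 ≤ P2 * e2 := mul_le_mul_of_nonneg_right hP2big (by linarith)
    refine ⟨t1 + 1 + 1, by omega, by omega, ⟨?_, ?_, ?_, ?_, ?_, ?_⟩, ?_⟩
    · rw [sum_range_succ, sum_range_succ, hLp2, hLp3]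
      linarith
    · rw [sum_range_succ, sum_range_succ]
      linarith [hd2.1]
    · intro m hm B hB
      refine hm_ext hg (fun B' htm hB' => ?_) B hB
      have h4 := hB' t htm
      have h6 : 0 ≤ B' := (norm_nonneg _).trans h4
      rcases Nat.lt_or_ge t1 m with h1 | h1
      · have h5 := hB' t1 h1
        have h3 := hS t1 le_rfl (by omega)
        rcases Nat.lt_or_ge (t1 + 1) m with h7 | h7
        · have h2 : m = t1 + 1 + 1 := by omega
          subst h2
          rw [sum_range_succ, sum_range_succ]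
          have h8 := hB' (t1 + 1) h7
          linarith
        · have h2 : m = t1 + 1 := by omega
          subst h2
          rw [sum_range_succ]
          linarith
      · have h3 := hS m h1 htm
        linarith
    · refine hv_aux (A := A) (l := l) (Q := Q) (P := P2 * P1) (L1 := L1) (e1 := e1) hA0.le hg.hv
        (by linarith) (by positivity) ?_ hL2 he3 hLp3.le he3'
      have b1 : (1000000000000 : ℝ) * 0.00097 ≤ (P2 * P1) * Q :=
        mul_le_mul hPP hQ3 (by norm_num) (by positivity)
      linarith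
    · linarith
    · right
      linarith
    · rw [hLp3]
      linarith

end Pool.Agent.helper54.CR
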